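import Mathlib

/-!
Linear algebra: generalised eigenspaces and exact sequences.
-/

open Polynomial

namespace Pool.Agent.Lib_helper55.Beil

variable {E : Type*} [Field E] {M N : Type*} [AddCommGroup M] [Module E M] [AddCommGroup N]
  [Module E N]

lemma aeval_intertwine (A : Module.End E M) (B : Module.End E N) (f : M →ₗ[E] N)
    (h : ∀ m, f (A m) = B (f m)) (p : E[X]) (m : M) : f (aeval A p m) = aeval B p (f m) := by
  induction p using Polynomial.induction_on' with
  | add p q hp hq => simp [hp, hq]
  | monomial n a =>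
    have hn : ∀ (n : ℕ) (m : M), f ((A ^ n) m) = (B ^ n) (f m) := by
      intro n
      induction n with
      | zero => intro m; simp
      | succ n ih => intro m; rw [pow_succ, pow_succ, Module.End.mul_apply, Module.End.mul_apply,
          ih, h]
    simp [aeval_monomial, hn]

lemma mem_maxGen_iff (A : Module.End E M) (m : M) :
    m ∈ Module.End.maxGenEigenspace A 1 ↔ ∃ r : ℕ, ((A - 1) ^ r) m = 0 := by
  rw [Module.End.mem_maxGenEigenspace]
  simp

lemma maxGen_map (A : Module.End E M) (B : Module.End E N) (f : M →ₗ[E] N)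
    (h : ∀ m, f (A m) = B (f m)) {m : M} (hm : m ∈ Module.End.maxGenEigenspace A 1) :
    f m ∈ Module.End.maxGenEigenspace B 1 := by
  rw [mem_maxGen_iff] at hm ⊢
  obtain ⟨r, hr⟩ := hm
  refine ⟨r, ?_⟩
  have h1 := aeval_intertwine A B f h ((X - 1) ^ r) m
  simp only [map_pow, map_sub, aeval_X, map_one] at h1
  rw [← h1, hr, map_zero]

/-- A vector of the generalised eigenspace of the target which lies in the image of an
equivariant map is the image of a vector of the generalised eigenspace. -/
lemma maxGen_lift [FiniteDimensional E M] (A : Module.End E M) (B : Module.End E N)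
    (f : M →ₗ[E] N) (h : ∀ m, f (A m) = B (f m)) {m : M}
    (hm : f m ∈ Module.End.maxGenEigenspace B 1) :
    ∃ m' ∈ Module.End.maxGenEigenspace A 1, f m' = f m := by
  rw [mem_maxGen_iff] at hm
  obtain ⟨s, hs⟩ := hm
  have hp : minpoly E A ≠ 0 := minpoly.ne_zero (Algebra.IsIntegral.isIntegral A)
  obtain ⟨q, hq, hq1⟩ := Polynomial.exists_eq_pow_rootMultiplicity_mul_and_not_dvd
    (minpoly E A) hp 1
  set r := (minpoly E A).rootMultiplicity 1
  have hc : IsCoprime ((X - C (1 : E)) ^ s) q :=
    IsCoprime.pow_left (((irreducible_X_sub_C (1 : E)).coprime_iff_not_dvd).mpr hq1)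
  obtain ⟨u, v, huv⟩ := hc
  refine ⟨aeval A (v * q) m, ?_, ?_⟩
  · rw [mem_maxGen_iff]
    refine ⟨r, ?_⟩
    have h1 : ((A - 1) ^ r) = aeval A ((X - C (1 : E)) ^ r) := by simp
    rw [h1, ← Module.End.mul_apply, ← map_mul]
    have h2 : (X - C (1 : E)) ^ r * (v * q) = v * minpoly E A := by
      rw [hq]; ring
    rw [h2, map_mul, minpoly.aeval, mul_zero, LinearMap.zero_apply]
  · rw [aeval_intertwine A B f h]
    have h1 : v * q = 1 - u * (X - C (1 : E)) ^ s := by rw [← huv]; ring
    rw [h1, map_sub, map_mul, map_one, map_pow]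
    have h2 : (aeval B (X - C (1 : E))) = B - 1 := by simp
    rw [h2, LinearMap.sub_apply, Module.End.mul_apply, hs, map_zero, sub_zero, Module.End.one_apply]

/-- If there is no invariant vector then the generalised eigenspace for one vanishes. -/
lemma maxGen_eq_bot (A : Module.End E M) (h : ∀ m, A m = m → m = 0) {m : M}
    (hm : m ∈ Module.End.maxGenEigenspace A 1) : m = 0 := by
  rw [mem_maxGen_iff] at hm
  obtain ⟨r, hr⟩ := hm
  induction r generalizing m with
  | zero => simpa using hr
  | succ r ih =>
    rw [pow_succ, Module.End.mul_apply] at hr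
    have h1 := ih hr
    apply h
    rw [LinearMap.sub_apply, Module.End.one_apply, sub_eq_zero] at h1
    exact h1

end Pool.Agent.Lib_helper55.Beil
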