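import Pool.Agent.Lib_helper55.Beil.Geom
import Pool.Agent.Lib_helper55.Beil.LinAlg

/-!
The surjectivity half: if the cycle class map is surjective on arbitrarily small nonempty open
subvarieties of the smooth affine integral varieties of dimension between `i + 1` and `2 * i`, then
for every variety the generalised eigenspace of Frobenius for the eigenvalue one is spanned by
cycle classes.
-/

open CategoryTheory AlgebraicGeometry TopologicalSpace

namespace Pool.Agent.Lib_helper55.Beil

universe v

variable {k : Type} [Field k] {E : Type} [Field E] {i : ℕ} (T : Homology.{v} k E i)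

/-- The span of the cycle classes. -/
def Homology.alg (X : Var k) : Submodule E (T.H (2 * i) X) :=
  Submodule.span E (Set.range (T.cl X))

/-- The generalised eigenspace of Frobenius for the eigenvalue one. -/
def Homology.gen (X : Var k) : Submodule E (T.H (2 * i) X) :=
  Module.End.maxGenEigenspace (T.frob (2 * i) X) 1

lemma Homology.frob_alg (X : Var k) (m : T.H (2 * i) X) (hm : m ∈ T.alg X) :
    T.frob (2 * i) X m = m := by
  induction hm using Submodule.span_induction with
  | mem x hx =>
    obtain ⟨p, rfl⟩ := hx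
    exact T.frob_cl X p
  | zero => simp
  | add x y _ _ hx hy => rw [map_add, hx, hy]
  | smul a x _ hx => rw [map_smul, hx]

lemma Homology.alg_le_gen (X : Var k) : T.alg X ≤ T.gen X := by
  intro m hm
  refine (mem_maxGen_iff _ _).mpr ⟨1, ?_⟩
  rw [pow_one, LinearMap.sub_apply, Module.End.one_apply, T.frob_alg X m hm, sub_self]

lemma Homology.push_alg {Z X : Var k} (a : ClosedIn Z X) {m : T.H (2 * i) Z} (hm : m ∈ T.alg Z) :
    T.push (2 * i) a m ∈ T.alg X := by
  have := a.closed
  induction hm using Submodule.span_induction with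
  | mem x hx =>
    obtain ⟨p, rfl⟩ := hx
    rw [T.push_cl a p ((dim_map a.g a.comm p.1).trans p.2)]
    exact Submodule.subset_span ⟨_, rfl⟩
  | zero => simp
  | add x y _ _ hx hy => rw [map_add]; exact add_mem hx hy
  | smul a x _ hx => rw [map_smul]; exact Submodule.smul_mem _ _ hx

lemma Homology.res_alg_surj {U X : Var k} (j : OpenIn U X) {m : T.H (2 * i) U}
    (hm : m ∈ T.alg U) : ∃ m' ∈ T.alg X, T.res (2 * i) j m' = m := by
  have := j.isOpen
  induction hm using Submodule.span_induction with
  | mem x hx =>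
    obtain ⟨p, rfl⟩ := hx
    have h := (dim_map j.g j.comm p.1).trans p.2
    exact ⟨T.cl X ⟨j.g p.1, h⟩, Submodule.subset_span ⟨_, rfl⟩, T.res_cl j p h⟩
  | zero => exact ⟨0, zero_mem _, map_zero _⟩
  | add x y _ _ hx hy =>
    obtain ⟨x', hx', rfl⟩ := hx
    obtain ⟨y', hy', rfl⟩ := hy
    exact ⟨x' + y', add_mem hx' hy', map_add _ _ _⟩
  | smul a x _ hx =>
    obtain ⟨x', hx', rfl⟩ := hx
    exact ⟨a • x', Submodule.smul_mem _ _ hx', map_smul _ _ _⟩

/-- The class `gen ≤ alg` of varieties is closed under localisation. -/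
lemma Homology.glue {Z U X : Var k} (a : ClosedIn Z X) (j : OpenIn U X)
    (h : Complementary a j) (hZ : T.gen Z ≤ T.alg Z) (hU : T.gen U ≤ T.alg U) :
    T.gen X ≤ T.alg X := by
  intro m hm
  have h1 : T.res (2 * i) j m ∈ T.gen U :=
    maxGen_map _ _ _ (T.res_frob (2 * i) j) hm
  obtain ⟨m', hm', h2⟩ := T.res_alg_surj j (hU h1)
  have h3 : T.res (2 * i) j (m - m') = 0 := by rw [map_sub, h2, sub_self]
  obtain ⟨z, hz⟩ := (T.exact_X (2 * i) a j h _).mp h3
  have h4 : T.push (2 * i) a z ∈ T.gen X := by
    rw [hz]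
    exact sub_mem hm (T.alg_le_gen X hm')
  obtain ⟨z', hz', h5⟩ := maxGen_lift (T.frob (2 * i) Z) (T.frob (2 * i) X) (T.push (2 * i) a)
    (T.push_frob (2 * i) a) h4
  have h6 : m = T.push (2 * i) a z' + m' := by rw [h5, hz]; abel
  rw [h6]
  exact add_mem (T.push_alg a (hZ hz')) hm'

lemma Homology.res_cl_eq_zero {Z U X : Var k} (a : ClosedIn Z X) (j : OpenIn U X)
    (h : Complementary a j) (p : Pts i X) (hp : p.1 ∈ Set.range a.g) :
    T.res (2 * i) j (T.cl X p) = 0 := by
  obtain ⟨x, hx⟩ := p
  obtain ⟨z, rfl⟩ := hp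
  have := a.closed
  have hz : Z.dim z = i := (dim_map a.g a.comm z).symm.trans hx
  rw [← T.push_cl a ⟨z, hz⟩ hx]
  exact (T.exact_X (2 * i) a j h).apply_apply_eq_zero _

lemma Homology.clMap_mk (X : Var k) (c : Pts i X →₀ E) :
    T.clMap X ((ratZero E i X).mkQ c) = Finsupp.linearCombination E (T.cl X) c := by
  exact Submodule.liftQ_apply _ _ _

lemma Homology.linComb_mem_alg (X : Var k) (c : Pts i X →₀ E) :
    Finsupp.linearCombination E (T.cl X) c ∈ T.alg X := by
  rw [Homology.alg, ← Finsupp.range_linearCombination]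
  exact LinearMap.mem_range_self _ _

lemma Homology.clMap_mem_alg (X : Var k) (a : Chow E i X) : T.clMap X a ∈ T.alg X := by
  obtain ⟨c, rfl⟩ := (ratZero E i X).mkQ_surjective a
  rw [T.clMap_mk]
  exact T.linComb_mem_alg X c

lemma Homology.good_of_subsingleton (X : Var k) (h : Subsingleton (T.H (2 * i) X)) :
    T.gen X ≤ T.alg X := by
  intro m _
  rw [Subsingleton.elim m 0]
  exact zero_mem _

lemma complementary_open (X : Var k) (U : X.X.Opens) :
    Complementary (closedVarIn X U.compl) (openVarIn X U) := by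
  rw [Complementary, range_closedVarIn, range_openVarIn]
  rfl

lemma complementary_red (X : Var k) : Complementary (redVarIn X) (openVarIn X ⊥) := by
  rw [Complementary, range_redVarIn, range_openVarIn]
  simp

lemma isEmpty_openVar_bot (X : Var k) : IsEmpty (openVar X ⊥).X := by
  change IsEmpty (⊥ : X.X.Opens)
  exact ⟨fun x => x.2⟩

lemma Homology.good_of_red (X : Var k) (h : T.gen (redVar X) ≤ T.alg (redVar X)) :
    T.gen X ≤ T.alg X :=
  T.glue (redVarIn X) (openVarIn X ⊥) (complementary_red X) h
    (T.good_of_subsingleton _ (T.empty _ _ (isEmpty_openVar_bot X)))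

/-- Surjectivity of the cycle class map on arbitrarily small open subvarieties of the smooth affine
integral varieties `U` with `i < dim U ≤ 2 * i`. -/
def Homology.SmallSurj : Prop :=
  ∀ U : Var k, ∀ _ : IsIntegral U.X, IsAffine U.X → Smooth U.f →
    (i : Cardinal) < U.dim (genericPoint U.X) → U.dim (genericPoint U.X) ≤ (2 * i : ℕ) →
      ∃ (U' : Var k) (_ : OpenIn U' U), Nonempty U'.X ∧ T.Surj U'

/-- The weakest form of surjectivity: on the smooth affine integral varieties `U` with
`i < dim U ≤ 2 * i` on which all cycle classes vanish, Frobenius has no invariants, at least on a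
nonempty open subvariety. -/
def Homology.SmallVanish : Prop :=
  ∀ U : Var k, ∀ _ : IsIntegral U.X, IsAffine U.X → Smooth U.f →
    (i : Cardinal) < U.dim (genericPoint U.X) → U.dim (genericPoint U.X) ≤ (2 * i : ℕ) →
      (∀ x : Pts i U, T.cl U x = 0) →
        ∃ (U' : Var k) (_ : OpenIn U' U), Nonempty U'.X ∧
          ∀ m : T.H (2 * i) U', T.F (2 * i) U' m = m → m = 0

/-- The composition of open immersions. -/
noncomputable def OpenIn.trans {U V X : Var k} (j : OpenIn U V) (l : OpenIn V X) : OpenIn U X where
  g := j.g ≫ l.g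
  comm := by rw [Category.assoc, l.comm, j.comm]
  isOpen := by
    have := j.isOpen
    have := l.isOpen
    infer_instance

/-- The composition of closed immersions. -/
noncomputable def ClosedIn.trans {U V X : Var k} (j : ClosedIn U V) (l : ClosedIn V X) :
    ClosedIn U X where
  g := j.g ≫ l.g
  comm := by rw [Category.assoc, l.comm, j.comm]
  closed := by
    have := j.closed
    have := l.closed
    infer_instance

/-- A smooth affine integral variety is good if its proper closed subvarieties are. -/
lemma Homology.good_nice [PerfectField k] (hT : T.SmallVanish) (V : Var k) (hint : IsIntegral V.X)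
    (haff : IsAffine V.X) (hsm : Smooth V.f)
    (hD : ∀ D : Closeds V.X, genericPoint V.X ∉ D →
      T.gen (closedVar V D) ≤ T.alg (closedVar V D)) :
    T.gen V ≤ T.alg V := by
  rcases lt_trichotomy (V.dim (genericPoint V.X)) (i : Cardinal) with h | h | h
  · obtain ⟨d, hd⟩ := Cardinal.lt_aleph0.1 (h.trans (Cardinal.natCast_lt_aleph0))
    rw [hd, Nat.cast_lt] at h
    exact T.good_of_subsingleton V (T.vanish (2 * i) V hint d hd (by omega))
  · refine (T.fundamental V hint h).trans (Submodule.span_mono ?_)
    rintro _ rfl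
    exact ⟨_, rfl⟩
  · rcases lt_or_ge ((2 * i : ℕ) : Cardinal) (V.dim (genericPoint V.X)) with h2 | h2
    · exact T.good_of_subsingleton V (T.artin (2 * i) V hint haff hsm h2)
    · have hfg : (T.alg V).FG := IsNoetherian.noetherian _
      obtain ⟨s, hs, hspan⟩ := (Submodule.fg_span_iff_fg_span_finset_subset _).mp hfg
      have hs' : ∀ m : s, ∃ p : Pts i V, T.cl V p = m := fun m => hs m.2
      choose pt hpt using hs'
      let A : Set V.X := Set.range (fun m : s => (pt m).1)
      have hA : genericPoint V.X ∉ closure A := by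
        rw [show A = ⋃ m : s, {(pt m).1} by ext; simp [A, eq_comm], closure_iUnion_of_finite]
        intro hcon
        simp only [Set.mem_iUnion] at hcon
        obtain ⟨m, hm⟩ := hcon
        have h3 : (pt m).1 ⤳ genericPoint V.X := specializes_iff_mem_closure.mpr hm
        have h4 := dim_le_of_specializes V h3
        rw [(pt m).2] at h4
        exact absurd h (not_lt.mpr h4)
      have hmax : ∀ y : V.X, y ⤳ genericPoint V.X → y = genericPoint V.X := by
        intro y hy
        exact (hy.antisymm (genericPoint_specializes y)).eq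
      obtain ⟨U, hU1, hU2, hU3, hU4, hU5, hU6⟩ := exists_nice V (genericPoint V.X) hmax
        ⟨(closure A)ᶜ, isClosed_closure.isOpen_compl⟩ hA
      have hdim : (openVar V U).dim (genericPoint (openVar V U).X) = V.dim (genericPoint V.X) := by
        have := (openVarIn V U).isOpen
        rw [← dim_map (openVarIn V U).g (openVarIn V U).comm, hU6]
      have hcompU : Complementary (closedVarIn V U.compl) (openVarIn V U) :=
        complementary_open V U
      have hrange : ∀ m : s, (pt m).1 ∈ Set.range (closedVarIn V U.compl).g := by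
        intro m
        rw [range_closedVarIn]
        change (pt m).1 ∉ U
        intro h5
        exact hU2 h5 (subset_closure ⟨m, rfl⟩)
      have hres0 : ∀ m ∈ T.alg V, T.res (2 * i) (openVarIn V U) m = 0 := by
        intro m hm
        rw [Homology.alg, hspan] at hm
        induction hm using Submodule.span_induction with
        | mem x hx =>
          have h6 : T.cl V (pt ⟨x, hx⟩) = x := hpt ⟨x, hx⟩
          rw [← h6]
          exact T.res_cl_eq_zero _ (openVarIn V U) hcompU _ (hrange ⟨x, hx⟩)
        | zero => simp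
        | add x y _ _ hx hy => rw [map_add, hx, hy, add_zero]
        | smul a x _ hx => rw [map_smul, hx, smul_zero]
      have halg0 : ∀ m ∈ T.alg (openVar V U), m = 0 := by
        intro m hm
        obtain ⟨m', hm', rfl⟩ := T.res_alg_surj (openVarIn V U) hm
        exact hres0 m' hm'
      obtain ⟨U', j, hne, hinv⟩ := hT (openVar V U) hU5 hU3 hU4 (hdim ▸ h) (hdim ▸ h2)
        (fun x => halg0 _ (Submodule.subset_span ⟨x, rfl⟩))
      let j' : OpenIn U' V := j.trans (openVarIn V U)
      have hj' := j'.isOpen
      let O : V.X.Opens := j'.g.opensRange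
      have hO : genericPoint V.X ∈ O := by
        obtain ⟨u⟩ := hne
        exact (genericPoint_specializes (j'.g u)).mem_open O.2 ⟨u, rfl⟩
      have hcomp : Complementary (closedVarIn V O.compl) j' := by
        rw [Complementary, range_closedVarIn]
        rfl
      have hU'good : T.gen U' ≤ T.alg U' := by
        intro m hm
        rw [maxGen_eq_bot (T.frob (2 * i) U') hinv hm]
        exact zero_mem _
      exact T.glue (closedVarIn V O.compl) j' hcomp (hD _ (fun hcon => hcon hO)) hU'good


lemma lt_of_closed {Y X₀ : Var k} (h : Y.X ⟶ X₀.X) [IsPreimmersion h] (C : Closeds X₀.X)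
    (hC : ∀ y : Y.X, h y ∈ C) (D : Closeds Y.X) (y₀ : Y.X) (hy : y₀ ∉ D) :
    Closeds.closure (h '' (D : Set Y.X)) < C := by
  have h1 : Closeds.closure (h '' (D : Set Y.X)) ≤ C := by
    rw [Closeds.closure_le]
    rintro _ ⟨y, _, rfl⟩
    exact hC y
  refine lt_of_le_of_ne h1 ?_
  intro hcon
  have h2 : h y₀ ∈ closure (h '' (D : Set Y.X)) := by
    have : h y₀ ∈ Closeds.closure (h '' (D : Set Y.X)) := hcon ▸ hC y₀
    exact this
  have h3 : y₀ ∈ closure (D : Set Y.X) := by
    rw [h.isEmbedding.isInducing.closure_eq_preimage_closure_image]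
    exact h2
  rw [D.isClosed.closure_eq] at h3
  exact hy h3

/-- The main induction. -/
lemma Homology.good_aux [PerfectField k] (hN : ∀ (V : Var k) (_ : IsIntegral V.X),
    IsAffine V.X → Smooth V.f → (∀ D : Closeds V.X, genericPoint V.X ∉ D →
      T.gen (closedVar V D) ≤ T.alg (closedVar V D)) → T.gen V ≤ T.alg V)
    (X₀ : Var k) (C : Closeds X₀.X) :
    ∀ (Y : Var k) (g : Y.X ⟶ X₀.X), g ≫ X₀.f = Y.f → IsPreimmersion g → (∀ y, g y ∈ C) →
      T.gen Y ≤ T.alg Y := by
  induction C using WellFoundedLT.induction with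
  | ind C ih =>
  intro Y g comm hg hC
  apply T.good_of_red
  have hred := isReduced_redVar Y
  have hcl := (redVarIn Y).closed
  set Y' := redVar Y
  set g' : Y'.X ⟶ X₀.X := (redVarIn Y).g ≫ g
  have comm' : g' ≫ X₀.f = Y'.f := by
    rw [Category.assoc, comm, (redVarIn Y).comm]
  have hC' : ∀ y, g' y ∈ C := fun y => hC _
  rcases isEmpty_or_nonempty Y'.X with he | ⟨⟨x⟩⟩
  · exact T.good_of_subsingleton _ (T.empty _ _ he)
  obtain ⟨η, -, hη⟩ := exists_maximal Y' x
  obtain ⟨U, hU1, -, hU3, hU4, hU5, hU6⟩ := exists_nice Y' η hη ⊤ trivial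
  have hop := (openVarIn Y' U).isOpen
  -- closed subvarieties of a locally closed subvariety of `C` which miss a point are good
  have key : ∀ (W : Var k) (l : W.X ⟶ X₀.X), l ≫ X₀.f = W.f → IsPreimmersion l →
      (∀ y, l y ∈ C) → ∀ (D : Closeds W.X) (y₀ : W.X), y₀ ∉ D →
      T.gen (closedVar W D) ≤ T.alg (closedVar W D) := by
    intro W l hl1 hl2 hl3 D y₀ hy₀
    have hcl := (closedVarIn W D).closed
    refine ih (Closeds.closure (l '' (D : Set W.X))) (lt_of_closed l C hl3 D y₀ hy₀)
      (closedVar W D) ((closedVarIn W D).g ≫ l) ?_ inferInstance ?_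
    · rw [Category.assoc, hl1, (closedVarIn W D).comm]
    · intro y
      have h1 : (closedVarIn W D).g y ∈ (D : Set W.X) := by
        rw [← range_closedVarIn]
        exact ⟨y, rfl⟩
      exact subset_closure ⟨_, h1, rfl⟩
  refine T.glue (closedVarIn Y' U.compl) (openVarIn Y' U) (complementary_open Y' U) ?_ ?_
  · exact key Y' g' comm' inferInstance hC' U.compl η (fun hcon => hcon hU1)
  · refine hN (openVar Y' U) hU5 hU3 hU4 ?_
    intro D hD
    refine key (openVar Y' U) ((openVarIn Y' U).g ≫ g') ?_ inferInstance (fun y => hC' _) D _ hD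
    rw [Category.assoc, comm', (openVarIn Y' U).comm]

/-- The weakest form of surjectivity implies that for every variety the generalised eigenspace of
Frobenius is spanned by cycle classes. -/
theorem Homology.good_of_vanish [PerfectField k] (hT : T.SmallVanish) (X : Var k) :
    T.gen X ≤ T.alg X :=
  T.good_aux (fun V h1 h2 h3 h4 => T.good_nice hT V h1 h2 h3 h4) X ⊤ X (𝟙 _)
    (Category.id_comp _) inferInstance (fun _ => trivial)

lemma Homology.cl_zero_of_open {U' U : Var k} (j : OpenIn U' U)
    (h : ∀ x : Pts i U, T.cl U x = 0) (x : Pts i U') : T.cl U' x = 0 := by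
  have := j.isOpen
  have hx := (dim_map j.g j.comm x.1).trans x.2
  rw [← T.res_cl j x hx]
  exact (congrArg _ (h _)).trans (map_zero _)

lemma Homology.inv_zero_of_surj {U : Var k} (hs : T.Surj U) (h : ∀ x : Pts i U, T.cl U x = 0) :
    ∀ m : T.H (2 * i) U, T.F (2 * i) U m = m → m = 0 := by
  intro m hm
  obtain ⟨a, rfl⟩ := hs m hm
  have h1 := T.clMap_mem_alg U a
  have h2 : T.alg U ≤ ⊥ := by
    rw [Homology.alg, Submodule.span_le]
    rintro _ ⟨x, rfl⟩
    rw [h x]
    exact zero_mem _
  exact (Submodule.mem_bot E).1 (h2 h1)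

/-- Small surjectivity implies that for every variety the generalised eigenspace of Frobenius is
spanned by cycle classes. -/
theorem Homology.good_all [PerfectField k] (hT : T.SmallSurj) (X : Var k) :
    T.gen X ≤ T.alg X := by
  refine T.good_of_vanish ?_ X
  intro U hint haff hsm h1 h2 h3
  obtain ⟨U', j, hne, hs⟩ := hT U hint haff hsm h1 h2
  exact ⟨U', j, hne, T.inv_zero_of_surj hs (T.cl_zero_of_open j h3)⟩

theorem Homology.surj_of_good (X : Var k) (h : T.gen X ≤ T.alg X) : T.Surj X := by
  intro m hm
  replace hm : T.frob (2 * i) X m = m := hm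
  have h1 : m ∈ T.alg X := h ((mem_maxGen_iff _ _).mpr ⟨1, by
    rw [pow_one, LinearMap.sub_apply, Module.End.one_apply, hm, sub_self]⟩)
  rw [Homology.alg, ← Finsupp.range_linearCombination] at h1
  obtain ⟨c, hc⟩ := h1
  exact ⟨(ratZero E i X).mkQ c, by rw [T.clMap_mk, hc]⟩

theorem Homology.semisimple_of_good (X : Var k) (h : T.gen X ≤ T.alg X) : T.Semisimple X := by
  intro m hm
  replace hm : T.frob (2 * i) X (T.frob (2 * i) X m - m) = T.frob (2 * i) X m - m := hm
  apply T.frob_alg X m
  apply h
  refine (mem_maxGen_iff _ _).mpr ⟨2, ?_⟩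
  rw [pow_two, Module.End.mul_apply, LinearMap.sub_apply, LinearMap.sub_apply,
    Module.End.one_apply, Module.End.one_apply, hm, sub_self]

end Pool.Agent.Lib_helper55.Beil
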