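import Mathlib

/-!
Modifying the coordinates of an algebra by large powers of the variables of a Noether
normalisation makes the algebra integral over the new coordinates.
-/

namespace Pool.Agent.Lib_helper55.Beil

open MvPolynomial

section Val

variable {K Γ : Type} [Field K] [LinearOrderedCommGroupWithZero Γ] (v : Valuation K Γ)

lemma val_aeval_le {k : Type} [Field k] [Algebra k K] (hk : ∀ a : k, v (algebraMap k K a) ≤ 1)
    {s D : ℕ} (y : Fin s → K) {γ : Γ} (hγ : 1 ≤ γ) (hy : ∀ j, v (y j) ≤ γ)
    (a : MvPolynomial (Fin s) k) (ha : a.totalDegree ≤ D) : v (aeval y a) ≤ γ ^ D := by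
  rw [aeval_def, eval₂_eq']
  apply Valuation.map_sum_le
  intro m hm
  rw [map_mul, map_prod]
  have h1 : ∏ j, v (y j ^ m j) ≤ ∏ j, γ ^ m j := by
    apply Finset.prod_le_prod'
    intro j _
    rw [map_pow]
    exact pow_le_pow_left' (hy j) _
  have h2 : ∏ j, γ ^ m j ≤ γ ^ D := by
    rw [Finset.prod_pow_eq_pow_sum]
    apply pow_le_pow_right' hγ
    have := le_totalDegree hm
    rw [Finsupp.sum_fintype _ _ (fun _ => rfl)] at this
    exact this.trans ha
  calc v (algebraMap k K (coeff m a)) * ∏ j, v (y j ^ m j)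
      ≤ 1 * γ ^ D := mul_le_mul' (hk _) (h1.trans h2)
    _ = γ ^ D := one_mul _

lemma val_root_le {B : Γ} (hB : 1 ≤ B) (q : Polynomial K) (hq : q.Monic) (t : K)
    (ht : q.eval t = 0) (hc : ∀ l, v (q.coeff l) ≤ B) : v t ≤ B := by
  by_contra hcon
  rw [not_le] at hcon
  have hτ1 : 1 ≤ v t := hB.trans hcon.le
  have hm : q.natDegree ≠ 0 := by
    intro h0
    rw [hq.natDegree_eq_zero.1 h0, Polynomial.eval_one] at ht
    exact one_ne_zero ht
  obtain ⟨m, hm'⟩ := Nat.exists_eq_succ_of_ne_zero hm
  rw [Polynomial.eval_eq_sum_range, Finset.sum_range_succ, hq.coeff_natDegree, one_mul,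
    add_eq_zero_iff_eq_neg'] at ht
  have h1 : v (t ^ q.natDegree) = v t ^ (m + 1) := by rw [map_pow, hm']
  have hpos : 0 < v t := lt_of_lt_of_le zero_lt_one hτ1
  have h2 : v (∑ i ∈ Finset.range q.natDegree, q.coeff i * t ^ i) < v t ^ (m + 1) := by
    apply Valuation.map_sum_lt
    · exact pow_ne_zero _ hpos.ne'
    · intro l hl
      rw [Finset.mem_range, hm'] at hl
      rw [map_mul, map_pow]
      calc v (q.coeff l) * v t ^ l ≤ B * v t ^ m :=
            mul_le_mul' (hc l) (pow_le_pow_right' hτ1 (by omega))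
        _ < v t * v t ^ m := by
            exact mul_lt_mul_of_pos_right hcon (pow_pos hpos m)
        _ = v t ^ (m + 1) := (pow_succ' _ _).symm
  rw [ht, Valuation.map_neg] at h1
  exact absurd h1 (ne_of_lt h2)

end Val

variable {k S : Type} [Field k] [CommRing S] [IsDomain S] [Algebra k S]

theorem integral_trick {s : ℕ} (g : MvPolynomial (Fin s) k →ₐ[k] S)
    (hg : g.toRingHom.IsIntegral) {I : Type} [Finite I] (t : I → S) (e : Fin s → I) :
    ∃ D : ℕ, ∀ M, D < M → ∀ x : I → S, (∀ j, x (e j) = t (e j) + g (X j) ^ M) →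
      (aeval (R := k) x).toRingHom.IsIntegral := by
  have hint : ∀ i, ∃ q : Polynomial (MvPolynomial (Fin s) k), q.Monic ∧
      q.eval₂ g.toRingHom (t i) = 0 := fun i => hg (t i)
  choose q hqm hq0 using hint
  obtain ⟨D, hD⟩ : ∃ D : ℕ, ∀ i l, ((q i).coeff l).totalDegree ≤ D := by
    have : Fintype I := Fintype.ofFinite I
    refine ⟨∑ i, ∑ l ∈ Finset.range ((q i).natDegree + 1), ((q i).coeff l).totalDegree, ?_⟩
    intro i l
    rcases Nat.lt_or_ge (q i).natDegree l with h | h
    · rw [Polynomial.coeff_eq_zero_of_natDegree_lt h]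
      simp
    · refine le_trans ?_ (Finset.single_le_sum (f := fun i => ∑ l ∈ Finset.range ((q i).natDegree + 1),
        ((q i).coeff l).totalDegree) (fun _ _ => Nat.zero_le _) (Finset.mem_univ i))
      exact Finset.single_le_sum (f := fun l => ((q i).coeff l).totalDegree)
        (fun _ _ => Nat.zero_le _) (Finset.mem_range.2 (by omega))
  refine ⟨D, ?_⟩
  intro M hM x hx
  let K := FractionRing S
  let φ : S →ₐ[k] K := IsScalarTower.toAlgHom k S K
  have hφ : Function.Injective φ := IsFractionRing.injective S K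
  -- every valuation ring which contains the `x i` contains the `y j`
  have key : ∀ V : ValuationSubring K, (∀ a : k, algebraMap k K a ∈ V) → (∀ i, φ (x i) ∈ V) →
      ∀ j, φ (g (X j)) ∈ V := by
    intro V hVk hVx j
    by_contra hj
    have : Nonempty (Fin s) := ⟨j⟩
    obtain ⟨j₀, hj₀⟩ := Finite.exists_max (fun j => V.valuation (φ (g (X j))))
    set γ := V.valuation (φ (g (X j₀))) with hγdef
    have hγ1 : 1 < γ := by
      have h1 : 1 < V.valuation (φ (g (X j))) := by
        rw [← not_le, V.valuation_le_one_iff]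
        exact hj
      exact h1.trans_le (hj₀ j)
    have hk : ∀ a : k, V.valuation (algebraMap k K a) ≤ 1 := by
      intro a
      rw [V.valuation_le_one_iff]
      exact hVk a
    have hpoly : ∀ a : MvPolynomial (Fin s) k, a.totalDegree ≤ D →
        V.valuation (φ (g a)) ≤ γ ^ D := by
      intro a ha
      have h1 : φ (g a) = aeval (fun j => φ (g (X j))) a := by
        have h2 : φ.comp g = aeval (fun j => φ (g (X j))) := by
          apply MvPolynomial.algHom_ext
          intro j
          rw [aeval_X]
          rfl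
        exact congrArg (fun f => f a) h2
      rw [h1]
      exact val_aeval_le V.valuation hk _ hγ1.le hj₀ a ha
    have ht : V.valuation (φ (t (e j₀))) ≤ γ ^ D := by
      apply val_root_le V.valuation (one_le_pow₀ hγ1.le)
        ((q (e j₀)).map (φ.toRingHom.comp g.toRingHom)) ((hqm (e j₀)).map _)
      · have h5 : φ.toRingHom ((q (e j₀)).eval₂ g.toRingHom (t (e j₀))) = 0 := by
          rw [hq0, map_zero]
        rw [Polynomial.hom_eval₂] at h5
        rw [Polynomial.eval_map]
        exact h5
      · intro l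
        rw [Polynomial.coeff_map]
        exact hpoly _ (hD _ _)
    have hy : V.valuation (φ (g (X j₀) ^ M)) = γ ^ M := by
      rw [map_pow, map_pow]
    have hlt : V.valuation (φ (t (e j₀))) < V.valuation (φ (g (X j₀) ^ M)) := by
      rw [hy]
      exact ht.trans_lt (pow_lt_pow_right₀ hγ1 hM)
    have hxe : V.valuation (φ (x (e j₀))) = γ ^ M := by
      rw [hx, map_add, Valuation.map_add_eq_of_lt_right _ hlt, hy]
    have h3 : V.valuation (φ (x (e j₀))) ≤ 1 := by
      rw [V.valuation_le_one_iff]
      exact hVx _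
    rw [hxe] at h3
    exact absurd h3 (not_le.2 (one_lt_pow₀ hγ1 (by omega)))
  let f : MvPolynomial I k →ₐ[k] S := aeval (R := k) x
  have hyint : ∀ j, f.toRingHom.IsIntegralElem (g (X j)) := by
    intro j
    let Z : Set K := Set.range (algebraMap k K) ∪ Set.range (fun i => φ (x i))
    have h1 : φ (g (X j)) ∈ (⨅ V : {V : ValuationSubring K // Z ⊆ V.toSubring}, V.1.toSubring) := by
      rw [Subring.mem_iInf]
      rintro ⟨V, hV⟩
      refine key V ?_ ?_ j
      · intro a
        exact hV (Or.inl ⟨a, rfl⟩)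
      · intro i
        exact hV (Or.inr ⟨i, rfl⟩)
    rw [iInf_valuationSubring_superset] at h1
    obtain ⟨Q, hQm, hQ0⟩ := h1
    have hle : Subring.closure Z ≤ (φ.toRingHom.comp f.toRingHom).range := by
      rw [Subring.closure_le]
      rintro z (⟨a, rfl⟩ | ⟨i, rfl⟩)
      · refine ⟨algebraMap k _ a, ?_⟩
        change φ (f (algebraMap k _ a)) = _
        rw [AlgHom.commutes, AlgHom.commutes]
      · refine ⟨X i, ?_⟩
        change φ (f (X i)) = _
        rw [show f (X i) = x i from aeval_X x i]
    -- lift the polynomial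
    obtain ⟨Q', hQ'm, hQ'⟩ : ∃ Q' : Polynomial (MvPolynomial I k), Q'.Monic ∧
        Q'.map (φ.toRingHom.comp f.toRingHom) = Q.map (algebraMap (Subring.closure Z) K) := by
      have h2 : Q.map (algebraMap (Subring.closure Z) K) ∈
          Polynomial.lifts (φ.toRingHom.comp f.toRingHom) := by
        rw [Polynomial.lifts_iff_coeff_lifts]
        intro n
        rw [Polynomial.coeff_map]
        exact hle (Q.coeff n).2
      obtain ⟨Q', hQ'1, hQ'2, hQ'3⟩ := Polynomial.lifts_and_natDegree_eq_and_monic h2 (hQm.map _)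
      exact ⟨Q', hQ'3, hQ'1⟩
    refine ⟨Q', hQ'm, ?_⟩
    apply hφ
    have h3 : φ.toRingHom (Polynomial.eval₂ f.toRingHom (g (X j)) Q') = 0 := by
      rw [Polynomial.hom_eval₂, ← Polynomial.eval_map, hQ', Polynomial.eval_map]
      exact hQ0
    rw [map_zero]
    exact h3
  -- transitivity
  let alg : Algebra (MvPolynomial I k) S := f.toRingHom.toAlgebra
  have hgC : ∀ a, g a ∈ integralClosure (MvPolynomial I k) S := by
    intro a
    induction a using MvPolynomial.induction_on with
    | C a =>
      have : g (C a) = algebraMap (MvPolynomial I k) S (C a) := by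
        change g (algebraMap k _ a) = f (algebraMap k _ a)
        rw [AlgHom.commutes, AlgHom.commutes]
      rw [this]
      exact Subalgebra.algebraMap_mem _ _
    | add p q hp hq => rw [map_add]; exact add_mem hp hq
    | mul_X p n hp => rw [map_mul]; exact mul_mem hp (hyint n)
  intro z
  obtain ⟨Q, hQm, hQ0⟩ := hg z
  have h4 : IsIntegral (integralClosure (MvPolynomial I k) S) z := by
    let g' : MvPolynomial (Fin s) k →+* integralClosure (MvPolynomial I k) S :=
      g.toRingHom.codRestrict (integralClosure (MvPolynomial I k) S).toSubring hgC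
    refine ⟨Q.map g', hQm.map _, ?_⟩
    rw [Polynomial.eval₂_map]
    exact hQ0
  exact isIntegral_trans z h4

end Pool.Agent.Lib_helper55.Beil
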