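import Pool.Agent.Lib_helper55.Beil.Ked1
import Pool.Agent.Lib_helper55.Beil.Ked2

/-!
Standard smooth domains over a field of characteristic `p` are finite etale over polynomial rings.
-/

namespace Pool.Agent.Lib_helper55.Beil

open MvPolynomial Algebra

/-- An etale algebra which is a domain is algebraic over the base domain. -/
theorem isAlgebraic_of_etale (P S : Type) [CommRing P] [IsDomain P] [CommRing S] [IsDomain S]
    [Algebra P S] [Algebra.Etale P S] (hinj : Function.Injective (algebraMap P S)) :
    Algebra.IsAlgebraic P S := by
  have hf : FaithfulSMul P S := (faithfulSMul_iff_algebraMap_injective P S).2 hinj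
  let L := FractionRing S
  have h1 : FormallyUnramified S L := FormallyUnramified.of_isLocalization (nonZeroDivisors S)
  have h2 : FormallyUnramified P L := FormallyUnramified.comp P S L
  have hf2 : FaithfulSMul P L := (faithfulSMul_iff_algebraMap_injective P L).2 (by
    rw [IsScalarTower.algebraMap_eq P S L]
    exact (IsFractionRing.injective S L).comp hinj)
  let K := FractionRing P
  let alg : Algebra K L := FractionRing.liftAlgebra P L
  have tower : IsScalarTower P K L := FractionRing.isScalarTower_liftAlgebra P L
  have h3 : FormallyUnramified K L := FormallyUnramified.of_restrictScalars P K L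
  have h4 : EssFiniteType P L := EssFiniteType.comp P S L
  have h5 : EssFiniteType K L := EssFiniteType.of_comp P K L
  have h6 : Algebra.IsSeparable K L := FormallyUnramified.isSeparable K L
  have h7 : Algebra.IsAlgebraic K L := inferInstance
  have h8 : Algebra.IsAlgebraic P L := (IsFractionRing.comap_isAlgebraic_iff (A := P) (K := K)).2 h7
  constructor
  intro x
  have := h8.isAlgebraic (algebraMap S L x)
  exact (isAlgebraic_algebraMap_iff (IsFractionRing.injective S L)).1 this

theorem injective_of_etale (P S : Type) [CommRing P] [IsDomain P] [CommRing S] [IsDomain S]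
    [Algebra P S] [Algebra.Etale P S] : Function.Injective (algebraMap P S) := by
  have : Module.Flat P S := inferInstance
  have h2 : FaithfulSMul P S := inferInstance
  exact (faithfulSMul_iff_algebraMap_injective P S).1 h2

section

variable {k S : Type} [Field k] [CommRing S] [IsDomain S] [Algebra k S]

/-- If a domain is etale over a polynomial ring in `d` variables, it has transcendence degree
`d`. -/
theorem trdeg_eq_of_etale {d : ℕ} (φ : MvPolynomial (Fin d) k →ₐ[k] S)
    (hφ : φ.toRingHom.Etale) : Algebra.trdeg k S = d := by
  let alg : Algebra (MvPolynomial (Fin d) k) S := φ.toRingHom.toAlgebra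
  have tower : IsScalarTower k (MvPolynomial (Fin d) k) S :=
    IsScalarTower.of_algebraMap_eq' (by
      ext a
      change algebraMap k S a = φ (algebraMap k (MvPolynomial (Fin d) k) a)
      rw [AlgHom.commutes])
  have h1 : Algebra.Etale (MvPolynomial (Fin d) k) S := hφ
  have hinj := injective_of_etale (MvPolynomial (Fin d) k) S
  have halg := isAlgebraic_of_etale (MvPolynomial (Fin d) k) S hinj
  have hf : FaithfulSMul (MvPolynomial (Fin d) k) S :=
    (faithfulSMul_iff_algebraMap_injective _ _).2 hinj
  have h2 := _root_.trdeg_add_eq (R := k) (S := MvPolynomial (Fin d) k) (A := S)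
  have h0 : Algebra.trdeg (MvPolynomial (Fin d) k) S = 0 := _root_.trdeg_eq_zero
  rw [h0, add_zero, MvPolynomial.trdeg_of_isDomain] at h2
  rw [← h2]
  simp

/-- A standard smooth domain over a field of characteristic `p > 0` is finite etale over a
polynomial ring. -/
theorem exists_finite_etale (p : ℕ) (hp : 0 < p) [CharP k p] [Algebra.IsStandardSmooth k S] :
    ∃ (d : ℕ) (φ : MvPolynomial (Fin d) k →ₐ[k] S), φ.toRingHom.Finite ∧
      φ.toRingHom.Etale ∧ Algebra.trdeg k S = d := by
  obtain ⟨-, I, b₀, hb₀⟩ :=
    (Algebra.IsStandardSmooth.iff_exists_basis_kaehlerDifferential (R := k) (S := S)).1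
      inferInstance
  have hI : Finite I := Module.Finite.finite_basis b₀
  set d := Nat.card I
  let b := b₀.reindex (Finite.equivFin I)
  have hb : ∀ i, ∃ t : S, KaehlerDifferential.D k S t = b i := by
    intro i
    obtain ⟨t, ht⟩ := hb₀ ⟨(Finite.equivFin I).symm i, rfl⟩
    exact ⟨t, by rw [ht, Module.Basis.reindex_apply]⟩
  choose t ht using hb
  have het := etale_of_basis b t (fun i => (ht i).symm)
  have htr := trdeg_eq_of_etale _ het
  obtain ⟨s, g, hginj, hgint⟩ := exists_integral_inj_algHom_of_fg k S
  have hs : s ≤ d := by
    have h1 := lift_trdeg_le_of_injective g hginj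
    rw [MvPolynomial.trdeg_of_isDomain, htr] at h1
    simpa using h1
  let e : Fin s → Fin d := Fin.castLE hs
  have he : Function.Injective e := Fin.castLE_injective hs
  obtain ⟨D, hD⟩ := integral_trick g hgint t e
  set M := p * (D + 1)
  have hM : D < M := Nat.lt_of_lt_of_le (Nat.lt_succ_self D) (Nat.le_mul_of_pos_left _ hp)
  let x : Fin d → S := fun i => t i + Function.extend e (fun j => g (X j) ^ M) 0 i
  have hx : ∀ j, x (e j) = t (e j) + g (X j) ^ M := by
    intro j
    change t (e j) + Function.extend e (fun j => g (X j) ^ M) 0 (e j) = _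
    rw [he.extend_apply]
  have hdx : ∀ i, KaehlerDifferential.D k S (x i) = b i := by
    intro i
    change KaehlerDifferential.D k S (t i + Function.extend e (fun j => g (X j) ^ M) 0 i) = _
    rw [map_add, ht, add_eq_left]
    by_cases h : ∃ j, e j = i
    · obtain ⟨j, rfl⟩ := h
      rw [he.extend_apply, Derivation.leibniz_pow, ← Nat.cast_smul_eq_nsmul S]
      have : (M : S) = 0 := by
        have h2 : (p : S) = 0 := by
          rw [← map_natCast (algebraMap k S) p, CharP.cast_eq_zero k p, map_zero]
        rw [Nat.cast_mul, h2, zero_mul]
      rw [this, zero_smul]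
    · rw [Function.extend_apply' _ _ _ h, Pi.zero_apply, map_zero]
  refine ⟨d, aeval (R := k) x, ?_, etale_of_basis b x (fun i => (hdx i).symm), htr⟩
  have hint := hD M hM x hx
  have h : algebraMap k S = (aeval (R := k) x).toRingHom.comp
      (algebraMap k (MvPolynomial (Fin d) k)) := by
    ext a
    change _ = (aeval (R := k) x) (algebraMap k _ a)
    rw [AlgHom.commutes]
  have fin : Algebra.FiniteType k S := inferInstance
  exact hint.to_finite (h ▸ RingHom.finiteType_algebraMap.mpr fin).of_comp_finiteType

end

end Pool.Agent.Lib_helper55.Beil
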