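import Pool.Agent.Lib_helper55.Beil.Surj
import Pool.Agent.Lib_helper55.Beil.Ked3

/-!
Every smooth integral variety over a field of positive characteristic has a nonempty open
subvariety which is a finite etale cover of an affine space; consequences for the surjectivity of
the cycle class maps.
-/

open CategoryTheory AlgebraicGeometry TopologicalSpace

namespace Pool.Agent.Lib_helper55.Beil

universe v

variable {k : Type} [Field k]

/-- `U` is a finite etale cover of the affine space of dimension `d` over `k`. -/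
def Var.EtaleCover (U : Var k) (d : ℕ) : Prop :=
  ∃ g : U.X ⟶ Spec (CommRingCat.of (MvPolynomial (Fin d) k)), IsFinite g ∧ Etale g ∧
    g ≫ Spec.map (CommRingCat.ofHom MvPolynomial.C) = U.f

/-- `Z` is a smooth proper integral variety of dimension `d`. -/
def Var.SmoothProper (Z : Var k) (d : ℕ) : Prop :=
  Smooth Z.f ∧ IsProper Z.f ∧ ∃ _ : AlgebraicGeometry.IsIntegral Z.X, Z.dim (genericPoint Z.X) = d

lemma fromSpecResidueField_of_affine {X : Scheme.{0}} {W : X.Opens} (hW : IsAffineOpen W) (x : X)
    (hx : x ∈ W) : X.fromSpecResidueField x =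
      Spec.map (X.presheaf.germ W x hx ≫ X.residue x) ≫ hW.fromSpec := by
  rw [Scheme.fromSpecResidueField, ← hW.fromSpecStalk_eq_fromSpecStalk hx, Spec.map_comp,
    Category.assoc]
  rfl

/-- For an affine open neighbourhood of the generic point with ring `S`, the dimension of the
generic point is the transcendence degree of `S`. -/
lemma dim_generic_eq (V : Var k) [IsIntegral V.X] (W : V.X.Opens) (hW : IsAffineOpen W)
    (hη : genericPoint V.X ∈ W) (ψ : k →+* Γ(V.X, W))
    (hψ : Spec.map (CommRingCat.ofHom ψ) = hW.fromSpec ≫ V.f) :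
    V.dim (genericPoint V.X) = @Algebra.trdeg k Γ(V.X, W) _ _ ψ.toAlgebra := by
  have hne : Nonempty W := ⟨⟨_, hη⟩⟩
  let ρ : Γ(V.X, W) ⟶ V.X.residueField (genericPoint V.X) :=
    V.X.presheaf.germ W _ hη ≫ V.X.residue _
  have h1 : ρ.hom.comp ψ = V.toResidue (genericPoint V.X) := by
    have : CommRingCat.ofHom ψ ≫ ρ =
        Spec.preimage (V.X.fromSpecResidueField (genericPoint V.X) ≫ V.f) := by
      apply Spec.map_injective
      rw [Spec.map_comp, Spec.map_preimage, fromSpecResidueField_of_affine hW _ hη, hψ,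
        Category.assoc]
    exact congrArg CommRingCat.Hom.hom this
  let : Algebra k Γ(V.X, W) := ψ.toAlgebra
  let : Algebra k (V.X.residueField (genericPoint V.X)) :=
    (V.toResidue (genericPoint V.X)).toAlgebra
  let : Algebra Γ(V.X, W) (V.X.residueField (genericPoint V.X)) := ρ.hom.toAlgebra
  have tower : IsScalarTower k Γ(V.X, W) (V.X.residueField (genericPoint V.X)) :=
    IsScalarTower.of_algebraMap_eq' h1.symm
  let res : V.X.functionField →+* V.X.residueField (genericPoint V.X) := (V.X.residue _).hom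
  have hres : Function.Bijective res := ⟨res.injective, V.X.residue_surjective _⟩
  have hfrac : IsFractionRing Γ(V.X, W) V.X.functionField :=
    functionField_isFractionRing_of_isAffineOpen V.X W hW
  let e : V.X.functionField ≃ₐ[Γ(V.X, W)] V.X.residueField (genericPoint V.X) :=
    AlgEquiv.ofBijective { res with commutes' := fun r => rfl } hres
  have hfrac2 : IsFractionRing Γ(V.X, W) (V.X.residueField (genericPoint V.X)) :=
    IsLocalization.isLocalization_of_algEquiv (nonZeroDivisors _) e
  have halg : Algebra.IsAlgebraic Γ(V.X, W) (V.X.residueField (genericPoint V.X)) :=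
    IsLocalization.isAlgebraic _ (nonZeroDivisors _)
  have hf : FaithfulSMul Γ(V.X, W) (V.X.residueField (genericPoint V.X)) :=
    (faithfulSMul_iff_algebraMap_injective _ _).2 (IsFractionRing.injective _ _)
  have hf2 : FaithfulSMul k Γ(V.X, W) :=
    (faithfulSMul_iff_algebraMap_injective _ _).2 ψ.injective
  have h2 := _root_.trdeg_add_eq (R := k) (S := Γ(V.X, W))
    (A := V.X.residueField (genericPoint V.X))
  have h0 : Algebra.trdeg Γ(V.X, W) (V.X.residueField (genericPoint V.X)) = 0 :=
    _root_.trdeg_eq_zero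
  rw [h0, add_zero] at h2
  exact h2.symm

/-- Every smooth integral variety over a field of positive characteristic has a nonempty open
subvariety which is a finite etale cover of an affine space. -/
theorem exists_etaleCover (p : ℕ) (hp : 0 < p) [CharP k p] (V : Var k) [IsIntegral V.X]
    (hsm : Smooth V.f) : ∃ (W : V.X.Opens) (d : ℕ), genericPoint V.X ∈ W ∧
      (openVar V W).EtaleCover d ∧ V.dim (genericPoint V.X) = d := by
  obtain ⟨U₀, hU₀, W, hW, hη, e, hstd⟩ := Smooth.exists_isStandardSmooth V.f (genericPoint V.X)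
  have hne : Nonempty W := ⟨⟨_, hη⟩⟩
  obtain rfl : U₀ = ⊤ := by
    rw [eq_top_iff]
    intro x _
    have : x = V.f (genericPoint V.X) := Subsingleton.elim (α := PrimeSpectrum k) _ _
    rw [this]
    exact e hη
  let ψ' : CommRingCat.of k ⟶ Γ(V.X, W) := (Scheme.ΓSpecIso _).inv ≫ V.f.appLE ⊤ W e
  let ψ : k →+* Γ(V.X, W) := ψ'.hom
  have hψ : Spec.map (CommRingCat.ofHom ψ) = hW.fromSpec ≫ V.f := by
    change Spec.map ψ' = _
    rw [← hU₀.SpecMap_appLE_fromSpec V.f hW e, Spec.map_comp]
    congr 1
    have : hU₀.fromSpec = (Spec (CommRingCat.of k)).isoSpec.inv := IsAffineOpen.fromSpec_top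
    rw [this, Scheme.isoSpec_Spec_inv]
  have hstd' : ψ.IsStandardSmooth :=
    RingHom.isStandardSmooth_respectsIso.2 (V.f.appLE ⊤ W e).hom
      (Scheme.ΓSpecIso (CommRingCat.of k)).symm.commRingCatIsoToRingEquiv hstd
  let : Algebra k Γ(V.X, W) := ψ.toAlgebra
  have : Algebra.IsStandardSmooth k Γ(V.X, W) := hstd'
  obtain ⟨d, φ, hfin, het, htr⟩ := exists_finite_etale (k := k) (S := Γ(V.X, W)) p hp
  refine ⟨W, d, hη, ?_, ?_⟩
  · have h1 : IsFinite (Spec.map (CommRingCat.ofHom φ.toRingHom)) :=
      (IsFinite.SpecMap_iff _).2 hfin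
    have h2 : Etale (Spec.map (CommRingCat.ofHom φ.toRingHom)) :=
      (HasRingHomProperty.Spec_iff (P := @Etale)).2 het
    have h3 : CommRingCat.ofHom MvPolynomial.C ≫ CommRingCat.ofHom φ.toRingHom =
        CommRingCat.ofHom ψ := by
      ext a
      exact φ.commutes a
    have h4 : (hW.isoSpec.hom ≫ Spec.map (CommRingCat.ofHom φ.toRingHom)) ≫
        Spec.map (CommRingCat.ofHom MvPolynomial.C) = W.ι ≫ V.f := by
      rw [Category.assoc, ← Spec.map_comp, h3, hψ, ← Category.assoc, hW.isoSpec_hom_fromSpec]
    exact ⟨hW.isoSpec.hom ≫ Spec.map (CommRingCat.ofHom φ.toRingHom),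
      inferInstanceAs (IsFinite (hW.isoSpec.hom ≫ Spec.map (CommRingCat.ofHom φ.toRingHom))),
      inferInstanceAs (Etale (hW.isoSpec.hom ≫ Spec.map (CommRingCat.ofHom φ.toRingHom))), h4⟩
  · rw [dim_generic_eq V W hW hη ψ hψ]
    exact htr

variable {E : Type} [Field E] {i : ℕ} (T : Homology.{v} k E i)

/-- On the integral finite etale covers `U` of the affine spaces of dimension `d`, `i < d ≤ 2 * i`,
on which all cycle classes vanish, Frobenius has no invariants, at least on a nonempty open
subvariety. -/
def Homology.CoverVanish : Prop :=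
  ∀ (d : ℕ) (U : Var k), i < d → d ≤ 2 * i → AlgebraicGeometry.IsIntegral U.X → U.EtaleCover d →
    (∀ x : Pts i U, T.cl U x = 0) →
      ∃ (U' : Var k) (_ : OpenIn U' U), Nonempty U'.X ∧
        ∀ m : T.H (2 * i) U', T.F (2 * i) U' m = m → m = 0

theorem Homology.smallVanish_of_cover (p : ℕ) (hp : 0 < p) [CharP k p] (hT : T.CoverVanish) :
    T.SmallVanish := by
  intro V hint _ hsm h1 h2 h3
  obtain ⟨W, d, hη, hcov, hd⟩ := exists_etaleCover p hp V hsm
  rw [hd, Nat.cast_lt] at h1
  rw [hd, Nat.cast_le] at h2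
  have hne : Nonempty W := ⟨⟨_, hη⟩⟩
  obtain ⟨U', j, hne', hinv⟩ := hT d (openVar V W) h1 h2
    (inferInstanceAs (AlgebraicGeometry.IsIntegral W.toScheme)) hcov
    (T.cl_zero_of_open (openVarIn V W) h3)
  exact ⟨U', j.trans (openVarIn V W), hne', hinv⟩

/-- For a finite field the vanishing for small etale covers of affine spaces implies that for every
variety the generalised eigenspace of Frobenius is spanned by cycle classes. -/
theorem Homology.good_of_cover [Finite k] (hT : T.CoverVanish) (X : Var k) :
    T.gen X ≤ T.alg X := by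
  obtain ⟨p, hp⟩ := CharP.exists k
  have hp0 : p ≠ 0 := CharP.char_ne_zero_of_finite k p
  exact T.good_of_vanish (T.smallVanish_of_cover p (Nat.pos_of_ne_zero hp0) hT) X

end Pool.Agent.Lib_helper55.Beil
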