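import Pool.Agent.Lib_helper55.Beil.Inj
import Pool.Agent.Lib_helper55.Beil.Cover

/-!
More geometry of varieties: factorisation of closed and open immersions, finite etale coverings.
-/

open CategoryTheory AlgebraicGeometry TopologicalSpace

namespace Pool.Agent.Lib_helper55.Beil

universe v

variable {k : Type} [Field k]

lemma closedIn_ext {Z X : Var k} {a b : ClosedIn Z X} (h : a.g = b.g) : a = b := by
  cases a; cases b; cases h; rfl

/-- The inclusion of the closed subvarieties with underlying sets `C ≤ C'`. -/
noncomputable def closedVarMap (X : Var k) {C C' : Closeds X.X} (h : C ≤ C') :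
    ClosedIn (closedVar X C) (closedVar X C') where
  g := Scheme.IdealSheafData.inclusion (Scheme.IdealSheafData.vanishingIdeal_antimono h)
  comm := by
    change _ ≫ Scheme.IdealSheafData.subschemeι _ ≫ X.f = Scheme.IdealSheafData.subschemeι _ ≫ X.f
    rw [Scheme.IdealSheafData.inclusion_subschemeι_assoc]
  closed := inferInstanceAs (IsClosedImmersion (Scheme.IdealSheafData.inclusion
    (Scheme.IdealSheafData.vanishingIdeal_antimono h)))

lemma closedVarMap_comp (X : Var k) {C C' : Closeds X.X} (h : C ≤ C') :
    (closedVarMap X h).g ≫ (closedVarIn X C').g = (closedVarIn X C).g :=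
  Scheme.IdealSheafData.inclusion_subschemeι _

/-- A morphism from a reduced scheme into a closed subset. -/
lemma vanishingIdeal_le_ker {W X : Scheme.{0}} [IsReduced W] (f : W ⟶ X)
    (C : Closeds X) (h : ∀ w, f w ∈ C) : Scheme.IdealSheafData.vanishingIdeal C ≤ f.ker := by
  have h1 : f.ker = Scheme.IdealSheafData.vanishingIdeal (.closure (f '' (⊤ : Closeds W))) := by
    rw [← Scheme.IdealSheafData.map_vanishingIdeal, Scheme.IdealSheafData.vanishingIdeal_top,
      Scheme.nilradical_eq_bot, Scheme.IdealSheafData.map_bot]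
  rw [h1]
  apply Scheme.IdealSheafData.vanishingIdeal_antimono
  rw [Closeds.closure_le]
  rintro _ ⟨w, _, rfl⟩
  exact h w

/-- The factorisation of a morphism from a reduced scheme through a closed subset. -/
noncomputable def liftC {W X : Scheme.{0}} [IsReduced W] (f : W ⟶ X) (C : Closeds X)
    (h : ∀ w, f w ∈ C) : W ⟶ (Scheme.IdealSheafData.vanishingIdeal C).subscheme :=
  IsClosedImmersion.lift (Scheme.IdealSheafData.vanishingIdeal C).subschemeι f
    (by rw [Scheme.IdealSheafData.ker_subschemeι]; exact vanishingIdeal_le_ker f C h)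

lemma liftC_comp {W X : Scheme.{0}} [IsReduced W] (f : W ⟶ X) (C : Closeds X)
    (h : ∀ w, f w ∈ C) :
    liftC f C h ≫ (Scheme.IdealSheafData.vanishingIdeal C).subschemeι = f :=
  IsClosedImmersion.lift_fac _ _ _

/-- The factorisation of a closed immersion of a reduced variety through a closed subset which
contains its image. -/
noncomputable def factorC {W X : Var k} [IsReduced W.X] (a : ClosedIn W X) (C : Closeds X.X)
    (h : ∀ w, a.g w ∈ C) : ClosedIn W (closedVar X C) where
  g := liftC a.g C h
  comm := by
    change liftC a.g C h ≫ Scheme.IdealSheafData.subschemeι _ ≫ X.f = _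
    rw [← Category.assoc, liftC_comp, a.comm]
  closed := by
    have h2 : IsClosedImmersion
        (liftC a.g C h ≫ (Scheme.IdealSheafData.vanishingIdeal C).subschemeι) := by
      rw [liftC_comp]
      exact a.closed
    exact IsClosedImmersion.of_comp (liftC a.g C h)
      (Scheme.IdealSheafData.vanishingIdeal C).subschemeι

lemma factorC_comp {W X : Var k} [IsReduced W.X] (a : ClosedIn W X) (C : Closeds X.X)
    (h : ∀ w, a.g w ∈ C) : (factorC a C h).g ≫ (closedVarIn X C).g = a.g :=
  liftC_comp a.g C h

/-- The factorisation of an open immersion through a larger one. -/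
noncomputable def factorO {V U X : Var k} (l : OpenIn V X) (j : OpenIn U X)
    (h : Set.range l.g ⊆ Set.range j.g) : OpenIn V U where
  g := by
    have := j.isOpen
    exact IsOpenImmersion.lift j.g l.g h
  comm := by
    have := j.isOpen
    have h1 : IsOpenImmersion.lift j.g l.g h ≫ j.g = l.g := IsOpenImmersion.lift_fac _ _ _
    change IsOpenImmersion.lift j.g l.g h ≫ U.f = V.f
    rw [← j.comm, ← Category.assoc, h1, l.comm]
  isOpen := by
    have := j.isOpen
    have h1 : IsOpenImmersion.lift j.g l.g h ≫ j.g = l.g := IsOpenImmersion.lift_fac _ _ _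
    have h2 := l.isOpen
    rw [← h1] at h2
    exact IsOpenImmersion.of_comp _ j.g

lemma factorO_comp {V U X : Var k} (l : OpenIn V X) (j : OpenIn U X)
    (h : Set.range l.g ⊆ Set.range j.g) : (factorO l j h).g ≫ j.g = l.g := by
  have := j.isOpen
  exact IsOpenImmersion.lift_fac _ _ _

/-- A finite etale surjective morphism over `k`. -/
structure FinEt (V U : Var k) where
  /-- the morphism -/
  g : V.X ⟶ U.X
  comm : g ≫ U.f = V.f
  finite : IsFinite g
  etale : Etale g
  surj : Surjective g

/-- The restriction of a finite etale covering to an open subvariety. -/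
noncomputable def FinEt.restrict {V U : Var k} (π : FinEt V U) (O : U.X.Opens) :
    FinEt (openVar V (π.g ⁻¹ᵁ O)) (openVar U O) where
  g := π.g ∣_ O
  comm := by
    change (π.g ∣_ O) ≫ O.ι ≫ U.f = (π.g ⁻¹ᵁ O).ι ≫ V.f
    rw [← π.comm, morphismRestrict_ι_assoc]
  finite := by
    have := π.finite
    exact inferInstanceAs (IsFinite (π.g ∣_ O))
  etale := by
    have := π.etale
    exact inferInstanceAs (Etale (π.g ∣_ O))
  surj := by
    exact IsZariskiLocalAtTarget.restrict (P := @Surjective) π.surj O

lemma FinEt.restrict_comm {V U : Var k} (π : FinEt V U) (O : U.X.Opens) :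
    (π.restrict O).g ≫ (openVarIn U O).g = (openVarIn V (π.g ⁻¹ᵁ O)).g ≫ π.g :=
  morphismRestrict_ι _ _

/-- For a finite morphism from an integral variety, the image of a proper closed subset is not
dense. -/
lemma FinEt.exists_open {V U : Var k} (π : FinEt V U) [IsIntegral V.X] (O : V.X.Opens)
    (hO : genericPoint V.X ∈ O) :
    ∃ P : U.X.Opens, π.g (genericPoint V.X) ∈ P ∧ π.g ⁻¹ᵁ P ≤ O := by
  have hfin := π.finite
  have hcl : IsClosed (π.g '' (O : Set V.X)ᶜ) := π.g.isClosedMap _ O.2.isClosed_compl
  refine ⟨⟨(π.g '' (O : Set V.X)ᶜ)ᶜ, hcl.isOpen_compl⟩, ?_, ?_⟩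
  · rintro ⟨x, hx, hxη⟩
    have hdisc := (π.g.isDiscrete_preimage_singleton (π.g (genericPoint V.X))).to_subtype
    have h1 : (⟨genericPoint V.X, rfl⟩ : π.g ⁻¹' {π.g (genericPoint V.X)}) ⤳ ⟨x, hxη⟩ := by
      rw [subtype_specializes_iff]
      exact genericPoint_specializes x
    have h2 : genericPoint V.X = x := congrArg Subtype.val h1.eq
    exact hx (by rw [← h2]; exact hO)
  · intro x hx
    by_contra hcon
    exact hx ⟨x, hcon, rfl⟩

end Pool.Agent.Lib_helper55.Beil
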