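import Mathlib

/-!
Varieties over a field, their Chow groups, and axioms of l-adic etale (Borel-Moore) homology.
-/

open CategoryTheory AlgebraicGeometry

namespace Pool.Agent.Lib_helper55.Beil

universe v

/-- A variety over the field `k`: a separated scheme of finite type over `k`. -/
structure Var (k : Type) [Field k] where
  /-- the scheme -/
  X : Scheme.{0}
  /-- the structure morphism -/
  f : X ⟶ Spec (CommRingCat.of k)
  sep : IsSeparated f
  lft : LocallyOfFiniteType f
  qc : QuasiCompact f

variable {k : Type} [Field k]

instance (X : Var k) : IsSeparated X.f := X.sep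
instance (X : Var k) : LocallyOfFiniteType X.f := X.lft
instance (X : Var k) : QuasiCompact X.f := X.qc

instance Var.isLocallyNoetherian (X : Var k) : IsLocallyNoetherian X.X :=
  LocallyOfFiniteType.isLocallyNoetherian X.f

/-- The ring homomorphism from the ground field to the residue field of a point. -/
noncomputable def Var.toResidue (X : Var k) (x : X.X) : k →+* X.X.residueField x :=
  (Spec.preimage (X.X.fromSpecResidueField x ≫ X.f)).hom

/-- The dimension of (the closure of) the point `x`: the transcendence degree over `k` of the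
residue field of `x`. -/
noncomputable def Var.dim (X : Var k) (x : X.X) : Cardinal :=
  @Algebra.trdeg k (X.X.residueField x) _ _ (X.toResidue x).toAlgebra

/-- `X` has dimension at most `n`. -/
def Var.DimLE (X : Var k) (n : ℕ) : Prop := ∀ x : X.X, X.dim x ≤ n

/-- The `i`-dimensional points of `X`, in other words the `i`-dimensional integral closed
subvarieties. -/
def Pts (i : ℕ) (X : Var k) : Type := {x : X.X // X.dim x = i}

/-- A morphism over `k` which is a closed immersion. -/
structure ClosedIn (Z X : Var k) where
  /-- the morphism -/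
  g : Z.X ⟶ X.X
  comm : g ≫ X.f = Z.f
  closed : IsClosedImmersion g

/-- A morphism over `k` which is an open immersion. -/
structure OpenIn (U X : Var k) where
  /-- the morphism -/
  g : U.X ⟶ X.X
  comm : g ≫ X.f = U.f
  isOpen : IsOpenImmersion g

/-- The closed subvariety `Z` and the open subvariety `U` of `X` are complementary. -/
def Complementary {Z U X : Var k} (a : ClosedIn Z X) (j : OpenIn U X) : Prop :=
  Set.range a.g = (Set.range j.g)ᶜ

/-- The `i`-dimensional cycle `c` on `X` (coefficients in `E`) is the divisor of the rational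
function `φ` on the integral closed subvariety `W` of `X`. -/
def IsDiv {E : Type} [Field E] {i : ℕ} {W X : Var k} (a : ClosedIn W X) [IsIntegral W.X]
    (φ : W.X.functionField) (c : Pts i X →₀ E) : Prop :=
  (∀ (w : W.X) (h : X.dim (a.g w) = i), c ⟨a.g w, h⟩ = (Scheme.ord φ w : ℤ)) ∧
    ∀ x : Pts i X, x.1 ∉ Set.range a.g → c x = 0

/-- The `i`-dimensional cycles on `X` (coefficients in `E`) that are rationally equivalent to
zero: the span of the divisors of the nonzero rational functions on the integral closed
subvarieties of dimension `i + 1`. -/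
noncomputable def ratZero (E : Type) [Field E] (i : ℕ) (X : Var k) : Submodule E (Pts i X →₀ E) :=
  Submodule.span E {c | ∃ (W : Var k) (_ : IsIntegral W.X) (a : ClosedIn W X)
    (φ : W.X.functionField), W.dim (genericPoint W.X) = (i + 1 : ℕ) ∧ φ ≠ 0 ∧ IsDiv a φ c}

/-- The Chow group of `i`-dimensional cycles on `X` modulo rational equivalence, with coefficients
in `E`. -/
abbrev Chow (E : Type) [Field E] (i : ℕ) (X : Var k) : Type :=
  (Pts i X →₀ E) ⧸ ratZero E i X

/-- Finite-dimensional vector spaces `H n X`, one for each degree and each variety; the example is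
the l-adic etale homology `H_n(Xbar, Q_l(i))` with a fixed twist `i`. -/
structure Groups (k : Type) [Field k] (E : Type) [Field E] where
  /-- the homology groups -/
  H : ℕ → Var k → Type v
  [grp : ∀ n X, AddCommGroup (H n X)]
  [mod : ∀ n X, Module E (H n X)]
  [fin : ∀ n X, Module.Finite E (H n X)]

attribute [instance] Groups.grp Groups.mod Groups.fin

/-- The homology groups with the action `frob` of a topological generator of the Galois group, the
push-forward along closed immersions and the restriction to open subvarieties. -/
structure Maps (k : Type) [Field k] (E : Type) [Field E] extends Groups.{v} k E where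
  /-- Frobenius -/
  frob : ∀ n X, H n X →ₗ[E] H n X
  /-- push-forward along closed immersions -/
  push : ∀ (n : ℕ) {Z X : Var k}, ClosedIn Z X → (H n Z →ₗ[E] H n X)
  /-- restriction to open subvarieties -/
  res : ∀ (n : ℕ) {U X : Var k}, OpenIn U X → (H n X →ₗ[E] H n U)

variable {E : Type} [Field E]

/-- Frobenius acting on a homology class. -/
def Maps.F (T : Maps.{v} k E) (n : ℕ) (X : Var k) (m : T.H n X) : T.H n X := T.frob n X m

/-- Push-forward of a homology class. -/
def Maps.P (T : Maps.{v} k E) (n : ℕ) {Z X : Var k} (a : ClosedIn Z X) (m : T.H n Z) : T.H n X :=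
  T.push n a m

/-- Restriction of a homology class. -/
def Maps.R (T : Maps.{v} k E) (n : ℕ) {U X : Var k} (j : OpenIn U X) (m : T.H n X) : T.H n U :=
  T.res n j m

/-- The push-forwards and the restrictions commute with Frobenius. -/
def Maps.Equivariant (T : Maps.{v} k E) : Prop :=
  (∀ n (Z X : Var k) (a : ClosedIn Z X) (m : T.H n Z), T.P n a (T.F n Z m) = T.F n X (T.P n a m)) ∧
  ∀ n (U X : Var k) (j : OpenIn U X) (m : T.H n X), T.R n j (T.F n X m) = T.F n U (T.R n j m)

/-- The part `H (n + 1) U → H n Z → H n X → H n U` of the localisation sequence for a closed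
subvariety `Z` of `X` with complement `U` is exact, for some boundary map. -/
def Maps.Localisation (T : Maps.{v} k E) : Prop :=
  ∀ n (Z U X : Var k) (a : ClosedIn Z X) (j : OpenIn U X), Complementary a j →
    Function.Exact (T.P n a) (T.R n j) ∧
      ∃ bd : T.H (n + 1) U →ₗ[E] T.H n Z, Function.Exact bd (T.P n a)

/-- There is no homology in degree larger than twice the dimension, and none for the empty
variety. -/
def Maps.Vanishing (T : Maps.{v} k E) : Prop :=
  (∀ n (X : Var k), IsEmpty X.X → Subsingleton (T.H n X)) ∧
  ∀ (n : ℕ) (X : Var k) (_ : IsIntegral X.X) (d : ℕ),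
    X.dim (genericPoint X.X) = d → 2 * d < n → Subsingleton (T.H n X)

/-- Artin vanishing (with Poincare duality): for a smooth affine integral variety there is no
homology in degree smaller than the dimension. -/
def Maps.Artin (T : Maps.{v} k E) : Prop :=
  ∀ (n : ℕ) (X : Var k) (_ : IsIntegral X.X) (_ : IsAffine X.X) (_ : Smooth X.f),
    (n : Cardinal) < X.dim (genericPoint X.X) → Subsingleton (T.H n X)

/-- `cl` is compatible with push-forward and restriction. -/
def Maps.ClassFunctorial (T : Maps.{v} k E) {i : ℕ} (cl : ∀ X : Var k, Pts i X → T.H (2 * i) X) :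
    Prop :=
  (∀ (Z X : Var k) (a : ClosedIn Z X) (z : Pts i Z) (h : X.dim (a.g z.1) = i),
    T.P (2 * i) a (cl Z z) = cl X ⟨a.g z.1, h⟩) ∧
  ∀ (U X : Var k) (j : OpenIn U X) (u : Pts i U) (h : X.dim (j.g u.1) = i),
    T.R (2 * i) j (cl X ⟨j.g u.1, h⟩) = cl U u

/-- The classes `cl` are invariant under Frobenius, and cycles rationally equivalent to zero have
class zero. -/
def Maps.ClassInvariant (T : Maps.{v} k E) {i : ℕ} (cl : ∀ X : Var k, Pts i X → T.H (2 * i) X) :
    Prop :=
  (∀ (X : Var k) (x : Pts i X), T.F (2 * i) X (cl X x) = cl X x) ∧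
  ∀ (X : Var k) (c : Pts i X →₀ E), c ∈ ratZero E i X →
    Finsupp.linearCombination E (cl X) c = 0

/-- For an integral variety of dimension `i`, the generalised eigenspace of Frobenius for the
eigenvalue one in `H (2 * i) X` is spanned by the fundamental class. -/
def Maps.Fundamental (T : Maps.{v} k E) {i : ℕ} (cl : ∀ X : Var k, Pts i X → T.H (2 * i) X) :
    Prop :=
  ∀ (X : Var k) (_ : IsIntegral X.X) (h : X.dim (genericPoint X.X) = i),
    Module.End.maxGenEigenspace (T.frob (2 * i) X) 1 ≤
      Submodule.span E {cl X ⟨genericPoint X.X, h⟩}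

/-- The formal properties of the l-adic etale homology `H n X = H_n(Xbar, Q_l(i))` of the varieties
over a finite field `k` (twist `i` fixed), with the cycle classes of the `i`-dimensional points. -/
structure Homology (k : Type) [Field k] (E : Type) [Field E] (i : ℕ) extends Maps.{v} k E where
  equivariant : toMaps.Equivariant
  localisation : toMaps.Localisation
  vanishing : toMaps.Vanishing
  artin : toMaps.Artin
  /-- the cycle classes of the `i`-dimensional points -/
  cl : ∀ X : Var k, Pts i X → H (2 * i) X
  functorial : toMaps.ClassFunctorial cl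
  invariant : toMaps.ClassInvariant cl
  fundamental : toMaps.Fundamental cl

variable {i : ℕ} (T : Homology.{v} k E i)

/-- The cycle class map `cl_i` on the Chow group of `i`-dimensional cycles. -/
noncomputable def Homology.clMap (X : Var k) : Chow E i X →ₗ[E] T.H (2 * i) X :=
  Submodule.liftQ _ (Finsupp.linearCombination E (T.cl X)) (fun c hc => T.invariant.2 X c hc)

/-- `cl_i` is injective for `X`. -/
def Homology.Inj (X : Var k) : Prop := Function.Injective (T.clMap X)

/-- `cl_i` maps surjectively onto the invariants of Frobenius for `X`. -/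
def Homology.Surj (X : Var k) : Prop :=
  ∀ m, T.F (2 * i) X m = m → ∃ a, T.clMap X a = m

/-- The eigenvalue one of Frobenius on `H (2 * i) X` is semisimple: if `F m - m` is invariant
under Frobenius, then so is `m`. -/
def Homology.Semisimple (X : Var k) : Prop :=
  ∀ m, T.F (2 * i) X (T.F (2 * i) X m - m) = T.F (2 * i) X m - m → T.F (2 * i) X m = m

lemma Homology.push_frob (n : ℕ) {Z X : Var k} (a : ClosedIn Z X) (m : T.H n Z) :
    T.push n a (T.frob n Z m) = T.frob n X (T.push n a m) := T.equivariant.1 n Z X a m

lemma Homology.res_frob (n : ℕ) {U X : Var k} (j : OpenIn U X) (m : T.H n X) :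
    T.res n j (T.frob n X m) = T.frob n U (T.res n j m) := T.equivariant.2 n U X j m

lemma Homology.exact_X (n : ℕ) {Z U X : Var k} (a : ClosedIn Z X) (j : OpenIn U X)
    (h : Complementary a j) : Function.Exact (T.push n a) (T.res n j) :=
  (T.localisation n Z U X a j h).1

lemma Homology.empty (n : ℕ) (X : Var k) (h : IsEmpty X.X) : Subsingleton (T.H n X) :=
  T.vanishing.1 n X h

lemma Homology.vanish (n : ℕ) (X : Var k) (h : IsIntegral X.X) (d : ℕ)
    (h1 : X.dim (genericPoint X.X) = d) (h2 : 2 * d < n) : Subsingleton (T.H n X) :=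
  T.vanishing.2 n X h d h1 h2

lemma Homology.frob_cl (X : Var k) (x : Pts i X) : T.frob (2 * i) X (T.cl X x) = T.cl X x :=
  T.invariant.1 X x

lemma Homology.push_cl {Z X : Var k} (a : ClosedIn Z X) (z : Pts i Z)
    (h : X.dim (a.g z.1) = i) : T.push (2 * i) a (T.cl Z z) = T.cl X ⟨a.g z.1, h⟩ :=
  T.functorial.1 Z X a z h

lemma Homology.res_cl {U X : Var k} (j : OpenIn U X) (u : Pts i U)
    (h : X.dim (j.g u.1) = i) : T.res (2 * i) j (T.cl X ⟨j.g u.1, h⟩) = T.cl U u :=
  T.functorial.2 U X j u h

lemma Homology.cl_rat (X : Var k) (c : Pts i X →₀ E) (hc : c ∈ ratZero E i X) :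
    Finsupp.linearCombination E (T.cl X) c = 0 := T.invariant.2 X c hc

end Pool.Agent.Lib_helper55.Beil
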