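import Pool.Agent.Lib_helper55.Beil.Surj

/-!
The injectivity half: if the cycle class map is injective for the varieties of dimension at most
`2 * i + 1`, then it is injective for all varieties.
-/

open CategoryTheory AlgebraicGeometry TopologicalSpace

namespace Pool.Agent.Lib_helper55.Beil

universe v

variable {k : Type} [Field k] {E : Type} [Field E] {i : ℕ} (T : Homology.{v} k E i)

lemma closedIn_injective {Z X : Var k} (a : ClosedIn Z X) : Function.Injective a.g := by
  have := a.closed
  exact a.g.isEmbedding.injective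

/-- The map on `i`-dimensional points defined by a closed immersion. -/
noncomputable def ptsMap (i : ℕ) {Z X : Var k} (a : ClosedIn Z X) (z : Pts i Z) : Pts i X :=
  ⟨a.g z.1, by
    have := a.closed
    rw [dim_map a.g a.comm]
    exact z.2⟩

lemma ptsMap_injective (i : ℕ) {Z X : Var k} (a : ClosedIn Z X) :
    Function.Injective (ptsMap i a) := by
  intro z w h
  exact Subtype.ext (closedIn_injective a (congrArg Subtype.val h))

lemma mem_range_ptsMap {Z X : Var k} (a : ClosedIn Z X) (p : Pts i X)
    (hp : p.1 ∈ Set.range a.g) : p ∈ Set.range (ptsMap i a) := by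
  obtain ⟨z, hz⟩ := hp
  have := a.closed
  refine ⟨⟨z, ?_⟩, Subtype.ext hz⟩
  rw [← dim_map a.g a.comm, hz]
  exact p.2

/-- Push-forward of cycles along closed immersions preserves rational equivalence. -/
lemma ratZero_map {Z X : Var k} (a : ClosedIn Z X) (c : Pts i Z →₀ E)
    (hc : c ∈ ratZero E i Z) : Finsupp.mapDomain (ptsMap i a) c ∈ ratZero E i X := by
  induction hc using Submodule.span_induction with
  | mem c hc =>
    obtain ⟨W, hW, b, φ, h1, h2, h3, h4⟩ := hc
    refine Submodule.subset_span ⟨W, hW, b.trans a, φ, h1, h2, ?_, ?_⟩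
    · intro w h
      have hw : Z.dim (b.g w) = i := by
        have := a.closed
        rw [← dim_map a.g a.comm]
        exact h
      have h5 : Finsupp.mapDomain (ptsMap i a) c (ptsMap i a (Subtype.mk (b.g w) hw : Pts i Z)) =
          c (Subtype.mk (b.g w) hw : Pts i Z) :=
        Finsupp.mapDomain_apply (ptsMap_injective i a) _ _
      exact h5.trans (h3 w hw)
    · intro x hx
      by_cases hx2 : x ∈ Set.range (ptsMap i a)
      · obtain ⟨z, rfl⟩ := hx2
        rw [Finsupp.mapDomain_apply (ptsMap_injective i a)]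
        apply h4
        rintro ⟨w, hw⟩
        exact hx ⟨w, congrArg a.g hw⟩
      · exact Finsupp.mapDomain_of_notMem_range _ _ hx2
  | zero => simp
  | add x y _ _ hx hy => rw [Finsupp.mapDomain_add]; exact add_mem hx hy
  | smul r x _ hx => rw [Finsupp.mapDomain_smul]; exact Submodule.smul_mem _ _ hx

lemma Homology.push_linComb {Z X : Var k} (a : ClosedIn Z X) (c : Pts i Z →₀ E) :
    T.push (2 * i) a (Finsupp.linearCombination E (T.cl Z) c) =
      Finsupp.linearCombination E (T.cl X) (Finsupp.mapDomain (ptsMap i a) c) := by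
  rw [Finsupp.linearCombination_mapDomain, ← LinearMap.comp_apply,
    ← Finsupp.linearCombination_linear_comp]
  congr 2
  funext z
  exact T.push_cl a z (ptsMap i a z).2

/-- Injectivity in terms of cycles. -/
def Homology.InjC (X : Var k) : Prop :=
  ∀ c : Pts i X →₀ E, Finsupp.linearCombination E (T.cl X) c = 0 → c ∈ ratZero E i X

lemma Homology.inj_iff (X : Var k) : T.Inj X ↔ T.InjC X := by
  constructor
  · intro h c hc
    have h1 : T.clMap X ((ratZero E i X).mkQ c) = T.clMap X 0 := by
      rw [T.clMap_mk, hc, map_zero]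
    have h2 := h h1
    rwa [Submodule.mkQ_apply, Submodule.Quotient.mk_eq_zero] at h2
  · intro h
    rw [Homology.Inj, injective_iff_map_eq_zero]
    intro a ha
    obtain ⟨c, rfl⟩ := (ratZero E i X).mkQ_surjective a
    rw [T.clMap_mk] at ha
    rw [Submodule.mkQ_apply, Submodule.Quotient.mk_eq_zero]
    exact h c ha

/-- If `H (2 * i + 1) U` vanishes then a homologically trivial cycle of `X` with support in the
complement of `U` is rationally equivalent to zero, provided that `cl_i` is injective for this
complement. -/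
lemma Homology.injC_glue {Z U X : Var k} (a : ClosedIn Z X) (j : OpenIn U X)
    (h : Complementary a j) (hU : Subsingleton (T.H (2 * i + 1) U)) (hZ : T.InjC Z)
    (c : Pts i X →₀ E) (hc : ∀ p ∈ c.support, p.1 ∈ Set.range a.g)
    (hc0 : Finsupp.linearCombination E (T.cl X) c = 0) : c ∈ ratZero E i X := by
  obtain ⟨c', hc'⟩ : ∃ c' : Pts i Z →₀ E, Finsupp.mapDomain (ptsMap i a) c' = c := by
    refine ⟨Finsupp.comapDomain (ptsMap i a) c (ptsMap_injective i a).injOn, ?_⟩
    apply Finsupp.mapDomain_comapDomain _ (ptsMap_injective i a)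
    intro p hp
    exact mem_range_ptsMap a p (hc p hp)
  have h1 : T.push (2 * i) a (Finsupp.linearCombination E (T.cl Z) c') = 0 := by
    rw [T.push_linComb, hc', hc0]
  obtain ⟨bd, hbd⟩ := (T.localisation (2 * i) Z U X a j h).2
  obtain ⟨u, hu⟩ := (hbd _).mp h1
  have h2 : Finsupp.linearCombination E (T.cl Z) c' = 0 := by
    rw [← hu, Subsingleton.elim u 0, map_zero]
  rw [← hc']
  exact ratZero_map a c' (hZ c' h2)

lemma Homology.injC_of_red (X : Var k) (h : T.InjC (redVar X)) : T.InjC X := by
  intro c hc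
  refine T.injC_glue (redVarIn X) (openVarIn X ⊥) (complementary_red X)
    (T.empty _ _ (isEmpty_openVar_bot X)) h c (fun p _ => ?_) hc
  rw [range_redVarIn]
  exact Set.mem_univ _

/-- Injectivity of `cl_i` for the varieties of dimension at most `2 * i + 1`. -/
def Homology.LowInj : Prop := ∀ X : Var k, X.DimLE (2 * i + 1) → T.Inj X

lemma Homology.injC_aux [PerfectField k] (hT : T.LowInj) (X₀ : Var k) (C : Closeds X₀.X) :
    ∀ (Y : Var k) (g : Y.X ⟶ X₀.X), g ≫ X₀.f = Y.f → IsPreimmersion g → (∀ y, g y ∈ C) →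
      T.InjC Y := by
  induction C using WellFoundedLT.induction with
  | ind C ih =>
  intro Y g comm hg hC
  apply T.injC_of_red
  have hred := isReduced_redVar Y
  have hcl := (redVarIn Y).closed
  set Y' := redVar Y
  set g' : Y'.X ⟶ X₀.X := (redVarIn Y).g ≫ g
  have comm' : g' ≫ X₀.f = Y'.f := by
    rw [Category.assoc, comm, (redVarIn Y).comm]
  have hC' : ∀ y, g' y ∈ C := fun y => hC _
  by_cases hlow : Y'.DimLE (2 * i + 1)
  · exact (T.inj_iff Y').mp (hT Y' hlow)
  rw [Var.DimLE] at hlow
  push Not at hlow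
  obtain ⟨x, hx⟩ := hlow
  obtain ⟨η, hηx, hη⟩ := exists_maximal Y' x
  have hηdim : ((2 * i + 1 : ℕ) : Cardinal) < Y'.dim η :=
    hx.trans_le (dim_le_of_specializes Y' hηx)
  intro c hc
  let A : Set Y'.X := Set.range (fun p : c.support => p.1.1)
  have hA : η ∉ closure A := by
    rw [show A = ⋃ p : c.support, {p.1.1} by ext; simp [A, eq_comm], closure_iUnion_of_finite]
    intro hcon
    simp only [Set.mem_iUnion] at hcon
    obtain ⟨p, hp⟩ := hcon
    have h3 : p.1.1 ⤳ η := specializes_iff_mem_closure.mpr hp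
    have h4 := hη _ h3
    have h5 := p.1.2
    rw [h4] at h5
    rw [h5, Nat.cast_lt] at hηdim
    omega
  obtain ⟨U, hU1, hU2, hU3, hU4, hU5, hU6⟩ := exists_nice Y' η hη
    ⟨(closure A)ᶜ, isClosed_closure.isOpen_compl⟩ hA
  have hdim : (openVar Y' U).dim (genericPoint (openVar Y' U).X) = Y'.dim η := by
    have := (openVarIn Y' U).isOpen
    rw [← dim_map (openVarIn Y' U).g (openVarIn Y' U).comm, hU6]
  have hcl2 := (closedVarIn Y' U.compl).closed
  have hZ : T.InjC (closedVar Y' U.compl) := by
    refine ih (Closeds.closure (g' '' (U.compl : Set Y'.X)))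
      (lt_of_closed g' C hC' U.compl η (fun hcon => hcon hU1))
      (closedVar Y' U.compl) ((closedVarIn Y' U.compl).g ≫ g') ?_ inferInstance ?_
    · rw [Category.assoc, comm', (closedVarIn Y' U.compl).comm]
    · intro y
      have h1 : (closedVarIn Y' U.compl).g y ∈ (U.compl : Set Y'.X) := by
        rw [← range_closedVarIn]
        exact ⟨y, rfl⟩
      exact subset_closure ⟨_, h1, rfl⟩
  refine T.injC_glue (closedVarIn Y' U.compl) (openVarIn Y' U) (complementary_open Y' U)
    (T.artin (2 * i + 1) _ hU5 hU3 hU4 (hdim ▸ hηdim)) hZ c ?_ hc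
  intro p hp
  rw [range_closedVarIn]
  intro hcon
  exact hU2 hcon (subset_closure ⟨⟨p, hp⟩, rfl⟩)

/-- Injectivity in dimension at most `2 * i + 1` implies injectivity for all varieties. -/
theorem Homology.inj_all [PerfectField k] (hT : T.LowInj) (X : Var k) : T.Inj X :=
  (T.inj_iff X).mpr
    (T.injC_aux hT X ⊤ X (𝟙 _) (Category.id_comp _) inferInstance (fun _ => trivial))

end Pool.Agent.Lib_helper55.Beil
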