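import Pool.Agent.Lib_helper55.Beil.Defs

/-!
Geometry of varieties: invariance of the dimension of a point, closed and open subvarieties.
-/

open CategoryTheory AlgebraicGeometry TopologicalSpace

namespace Pool.Agent.Lib_helper55.Beil

variable {k : Type} [Field k]

lemma residueFieldMap_bijective {X Y : Scheme.{0}} (f : X ⟶ Y) [IsPreimmersion f] (x : X) :
    Function.Bijective (f.residueFieldMap x).hom := by
  refine ⟨(f.residueFieldMap x).hom.injective, ?_⟩
  have h1 : Function.Surjective (f.stalkMap x ≫ X.residue x).hom := by
    rw [CommRingCat.hom_comp]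
    exact (X.residue_surjective x).comp (f.stalkMap_surjective x)
  rw [← Scheme.residue_residueFieldMap, CommRingCat.hom_comp] at h1
  exact Function.Surjective.of_comp (f := (f.residueFieldMap x).hom) (g := (Y.residue (f x)).hom) h1

lemma toResidue_map {Z X : Var k} (g : Z.X ⟶ X.X) (comm : g ≫ X.f = Z.f) (z : Z.X) :
    (g.residueFieldMap z).hom.comp (X.toResidue (g z)) = Z.toResidue z := by
  have h : Spec.preimage (X.X.fromSpecResidueField (g z) ≫ X.f) ≫ g.residueFieldMap z =
      Spec.preimage (Z.X.fromSpecResidueField z ≫ Z.f) := by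
    apply Spec.map_injective
    rw [Spec.map_comp, Spec.map_preimage, Spec.map_preimage,
      Scheme.Hom.SpecMap_residueFieldMap_fromSpecResidueField_assoc, comm]
  exact congrArg CommRingCat.Hom.hom h

theorem dim_map {Z X : Var k} (g : Z.X ⟶ X.X) (comm : g ≫ X.f = Z.f) [IsPreimmersion g]
    (z : Z.X) : X.dim (g z) = Z.dim z := by
  let : Algebra k (X.X.residueField (g z)) := (X.toResidue (g z)).toAlgebra
  let : Algebra k (Z.X.residueField z) := (Z.toResidue z).toAlgebra
  let e : X.X.residueField (g z) ≃ₐ[k] Z.X.residueField z :=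
    AlgEquiv.ofBijective
      { (g.residueFieldMap z).hom with
        commutes' := fun r => by
          have := toResidue_map g comm z
          exact congrArg (fun (φ : k →+* _) => φ r) this }
      (residueFieldMap_bijective g z)
  exact e.trdeg_eq

/-- The dimension of a point does not increase under specialisation. -/
theorem dim_le_of_specializes (X : Var k) {x y : X.X} (h : x ⤳ y) : X.dim y ≤ X.dim x := by
  let ψ : CommRingCat.of k ⟶ X.X.presheaf.stalk y := Spec.preimage (X.X.fromSpecStalk y ≫ X.f)
  let φk : k →+* X.X.presheaf.stalk y := ψ.hom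
  let φ : X.X.presheaf.stalk y ⟶ X.X.residueField x :=
    X.X.presheaf.stalkSpecializes h ≫ X.X.residue x
  have h1 : (X.X.residue y).hom.comp φk = X.toResidue y := by
    have : ψ ≫ X.X.residue y = Spec.preimage (X.X.fromSpecResidueField y ≫ X.f) := by
      apply Spec.map_injective
      rw [Spec.map_comp, Spec.map_preimage, Spec.map_preimage, Scheme.fromSpecResidueField,
        Category.assoc]
    exact congrArg CommRingCat.Hom.hom this
  have h2 : φ.hom.comp φk = X.toResidue x := by
    have : ψ ≫ φ = Spec.preimage (X.X.fromSpecResidueField x ≫ X.f) := by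
      apply Spec.map_injective
      rw [Spec.map_comp, Spec.map_comp, Spec.map_preimage, Spec.map_preimage,
        Scheme.fromSpecResidueField, Category.assoc, Category.assoc,
        Scheme.SpecMap_stalkSpecializes_fromSpecStalk_assoc]
    exact congrArg CommRingCat.Hom.hom this
  let : Algebra k (X.X.presheaf.stalk y) := φk.toAlgebra
  let : Algebra k (X.X.residueField y) := (X.toResidue y).toAlgebra
  let : Algebra k (X.X.residueField x) := (X.toResidue x).toAlgebra
  let a : X.X.presheaf.stalk y →ₐ[k] X.X.residueField y :=
    { (X.X.residue y).hom with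
      commutes' := fun r => congrArg (fun (ψ : k →+* _) => ψ r) h1 }
  let b : X.X.presheaf.stalk y →ₐ[k] X.X.residueField x :=
    { φ.hom with
      commutes' := fun r => congrArg (fun (ψ : k →+* _) => ψ r) h2 }
  have ha : Function.Surjective a := X.X.residue_surjective y
  have hker : RingHom.ker b ≤ RingHom.ker a := by
    have h3 : RingHom.ker a = IsLocalRing.maximalIdeal (X.X.presheaf.stalk y) := by
      exact IsLocalRing.ker_residue
    rw [h3]
    exact IsLocalRing.le_maximalIdeal (RingHom.ker_ne_top _)
  have h4 : Algebra.trdeg k (X.X.presheaf.stalk y ⧸ RingHom.ker b) ≤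
      Algebra.trdeg k (X.X.residueField x) :=
    trdeg_le_of_injective (Ideal.kerLiftAlg b) (Ideal.kerLiftAlg_injective b)
  have h5 : Algebra.trdeg k (X.X.residueField y) ≤
      Algebra.trdeg k (X.X.presheaf.stalk y ⧸ RingHom.ker b) := by
    refine trdeg_le_of_surjective (Ideal.Quotient.liftₐ (RingHom.ker b) a ?_) ?_
    · intro r hr
      exact hker hr
    · intro z
      obtain ⟨w, rfl⟩ := ha z
      exact ⟨Ideal.Quotient.mk _ w, rfl⟩
  exact h5.trans h4

instance Var.compactSpace (X : Var k) : CompactSpace X.X :=
  QuasiCompact.compactSpace_of_compactSpace X.f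

instance Var.isNoetherian (X : Var k) : IsNoetherian X.X where

/-- The closed subvariety with underlying set `C` (reduced structure). -/
noncomputable def closedVar (X : Var k) (C : Closeds X.X) : Var k where
  X := (Scheme.IdealSheafData.vanishingIdeal C).subscheme
  f := (Scheme.IdealSheafData.vanishingIdeal C).subschemeι ≫ X.f
  sep := inferInstance
  lft := inferInstance
  qc := inferInstance

noncomputable def closedVarIn (X : Var k) (C : Closeds X.X) : ClosedIn (closedVar X C) X where
  g := (Scheme.IdealSheafData.vanishingIdeal C).subschemeι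
  comm := rfl
  closed := inferInstanceAs
    (IsClosedImmersion (Scheme.IdealSheafData.vanishingIdeal C).subschemeι)

lemma range_closedVarIn (X : Var k) (C : Closeds X.X) :
    Set.range (closedVarIn X C).g = C := by
  have := Scheme.IdealSheafData.range_subschemeι (Scheme.IdealSheafData.vanishingIdeal C)
  rw [Scheme.IdealSheafData.coe_support_vanishingIdeal] at this
  exact this

/-- The open subvariety with underlying set `U`. -/
noncomputable def openVar (X : Var k) (U : X.X.Opens) : Var k where
  X := U.toScheme
  f := U.ι ≫ X.f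
  sep := inferInstance
  lft := inferInstance
  qc := inferInstance

noncomputable def openVarIn (X : Var k) (U : X.X.Opens) : OpenIn (openVar X U) X where
  g := U.ι
  comm := rfl
  isOpen := inferInstanceAs (IsOpenImmersion U.ι)

lemma range_openVarIn (X : Var k) (U : X.X.Opens) :
    Set.range (openVarIn X U).g = (U : Set X.X) := by
  have := Scheme.Opens.range_ι U
  exact this


/-- The reduced subvariety. -/
noncomputable def redVar (X : Var k) : Var k where
  X := X.X.nilradical.subscheme
  f := X.X.nilradical.subschemeι ≫ X.f
  sep := inferInstance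
  lft := inferInstance
  qc := inferInstance

noncomputable def redVarIn (X : Var k) : ClosedIn (redVar X) X where
  g := X.X.nilradical.subschemeι
  comm := rfl
  closed := inferInstanceAs (IsClosedImmersion X.X.nilradical.subschemeι)

lemma range_redVarIn (X : Var k) : Set.range (redVarIn X).g = Set.univ := by
  have := Scheme.IdealSheafData.range_subschemeι X.X.nilradical
  rw [Scheme.support_nilradical] at this
  exact this

lemma isReduced_redVar (X : Var k) : IsReduced (redVar X).X := by
  change IsReduced X.X.nilradical.subscheme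
  have h : ∀ U, IsReduced (X.X.nilradical.subschemeCover.openCover.X U) := by
    intro U
    change IsReduced (Spec (.of (Γ(X.X, U.1) ⧸ X.X.nilradical.ideal U)))
    have : _root_.IsReduced (Γ(X.X, U.1) ⧸ X.X.nilradical.ideal U) := by
      rw [← Ideal.isRadical_iff_quotient_reduced]
      change (Ideal.radical _).IsRadical
      exact Ideal.radical_isRadical _
    have : _root_.IsReduced (CommRingCat.of (Γ(X.X, U.1) ⧸ X.X.nilradical.ideal U)) := this
    infer_instance
  exact IsReduced.of_openCover _ X.X.nilradical.subschemeCover.openCover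


/-- Every point is a specialisation of a maximal point. -/
lemma exists_maximal (X : Var k) (x : X.X) :
    ∃ η : X.X, η ⤳ x ∧ ∀ y : X.X, y ⤳ η → y = η := by
  have h1 := isIrreducible_irreducibleComponent (x := x)
  have h2 : IsClosed (irreducibleComponent x) := isClosed_irreducibleComponent
  obtain ⟨η, hη⟩ := QuasiSober.sober h1 h2
  refine ⟨η, ?_, ?_⟩
  · rw [specializes_iff_mem_closure, hη.def]
    exact mem_irreducibleComponent
  · intro y hy
    have h3 : closure ({η} : Set X.X) ≤ closure {y} := by
      rw [specializes_iff_mem_closure] at hy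
      exact closure_minimal (Set.singleton_subset_iff.mpr hy) isClosed_closure
    have h4 : irreducibleComponent x ∈ irreducibleComponents X.X :=
      irreducibleComponent_mem_irreducibleComponents x
    have h5 : closure ({y} : Set X.X) ≤ irreducibleComponent x := by
      rw [hη.def] at h3
      exact h4.2 (isIrreducible_singleton.closure) h3
    have h6 : η ⤳ y := by
      rw [specializes_iff_mem_closure, hη.def]
      exact h5 (subset_closure rfl)
    exact (hy.antisymm h6).eq

/-- A maximal point of a reduced variety over a perfect field has arbitrarily small open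
neighbourhoods which are smooth affine integral varieties. -/
lemma exists_nice [PerfectField k] (X : Var k) [IsReduced X.X] (η : X.X)
    (hη : ∀ y : X.X, y ⤳ η → y = η) (O : X.X.Opens) (hO : η ∈ O) :
    ∃ U : X.X.Opens, η ∈ U ∧ U ≤ O ∧ IsAffine (openVar X U).X ∧
      Smooth (openVar X U).f ∧ ∃ _ : IsIntegral (openVar X U).X,
        (openVarIn X U).g (genericPoint (openVar X U).X) = η := by
  have hC : closure ({η} : Set X.X) ∈ irreducibleComponents X.X := by
    refine ⟨isIrreducible_singleton.closure, ?_⟩
    intro D hD hD2
    obtain ⟨ξ, hξ⟩ := QuasiSober.sober hD.closure isClosed_closure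
    have h1 : ξ ⤳ η := by
      rw [specializes_iff_mem_closure, hξ.def]
      exact subset_closure (hD2 (subset_closure rfl))
    have h2 := hη ξ h1
    subst h2
    rw [hξ.def]
    exact subset_closure
  let U₁ : X.X.Opens := Scheme.irreducibleComponentOpen X.X (closure {η})
  have hηU₁ : η ∈ U₁ := by
    change η ∈ (⋃₀ (irreducibleComponents X.X \ {closure {η}}))ᶜ
    rintro ⟨D, ⟨hD1, hD2⟩, hD3⟩
    have hDc : IsClosed D := isClosed_of_mem_irreducibleComponents D hD1
    have h1 : closure ({η} : Set X.X) ≤ D :=
      closure_minimal (Set.singleton_subset_iff.mpr hD3) hDc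
    exact hD2 (le_antisymm (hC.2 hD1.1 h1) h1)
  have hU₁ : ∀ y ∈ U₁, η ⤳ y := by
    intro y hy
    rw [specializes_iff_mem_closure]
    by_contra hcon
    apply (show y ∉ ⋃₀ (irreducibleComponents X.X \ {closure {η}}) from hy)
    refine ⟨irreducibleComponent y, ⟨irreducibleComponent_mem_irreducibleComponents y, ?_⟩,
      mem_irreducibleComponent⟩
    intro h1
    apply hcon
    rw [← (show irreducibleComponent y = closure {η} from h1)]
    exact mem_irreducibleComponent
  have hdense := Scheme.Hom.dense_smoothLocus_of_perfectField X.f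
  have hηs : η ∈ X.f.smoothLocus := by
    obtain ⟨y, hy1, hy2⟩ := hdense.inter_open_nonempty (O ⊓ U₁ : X.X.Opens) (O ⊓ U₁).2 ⟨η, hO, hηU₁⟩
    exact (hU₁ y hy1.2).mem_open X.f.smoothLocus.2 hy2
  obtain ⟨U, hxU, hU, hUle⟩ : ∃ U : X.X.Opens, η ∈ U ∧ IsAffineOpen U ∧
      ∀ y ∈ U, y ∈ O ∧ y ∈ U₁ ∧ y ∈ X.f.smoothLocus := by
    obtain ⟨_, ⟨U, hU, rfl⟩, hxU, hUle⟩ :=
      X.X.isBasis_affineOpens.exists_subset_of_mem_open
        (show η ∈ ((O ⊓ U₁ ⊓ X.f.smoothLocus : X.X.Opens) : Set X.X) from ⟨⟨hO, hηU₁⟩, hηs⟩)
        (O ⊓ U₁ ⊓ X.f.smoothLocus).2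
    exact ⟨U, hxU, hU, fun y hy => ⟨(hUle hy).1.1, (hUle hy).1.2, (hUle hy).2⟩⟩
  have hclos : closure (U : Set X.X) = closure {η} := by
    apply le_antisymm
    · apply closure_minimal _ isClosed_closure
      intro y hy
      rw [← specializes_iff_mem_closure]
      exact hU₁ y (hUle y hy).2.1
    · exact closure_mono (Set.singleton_subset_iff.mpr hxU)
  refine ⟨U, hxU, fun y hy => (hUle y hy).1, hU, ?_, ?_⟩
  · change Smooth (U.ι ≫ X.f)
    rw [← Scheme.Hom.smoothLocus_eq_top_iff, ← Scheme.Hom.preimage_smoothLocus_eq]
    ext y
    simp only [Scheme.Hom.coe_preimage, Set.mem_preimage, SetLike.mem_coe, Opens.coe_top,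
      Set.mem_univ, iff_true]
    exact (hUle y.1 y.2).2.2
  · have hirr : IrreducibleSpace U :=
      isIrreducible_iff_irreducibleSpace.mp
        (isIrreducible_iff_closure.mp (hclos ▸ isIrreducible_singleton.closure))
    have hint : IsIntegral U.toScheme := isIntegral_of_irreducibleSpace_of_isReduced _
    refine ⟨hint, ?_⟩
    change U.ι (genericPoint U.toScheme) = η
    have h1 := (genericPoint_spec U.toScheme).image U.ι.continuous
    rw [Set.image_univ, U.range_ι, hclos] at h1
    exact h1.eq (show IsGenericPoint η (closure {η}) from rfl)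

end Pool.Agent.Lib_helper55.Beil
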