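import Pool.Agent.Lib_helper55.Beil.Geom2

/-!
Generic vanishing of Frobenius invariants and the bijectivity of the cycle class maps.
-/

open CategoryTheory AlgebraicGeometry TopologicalSpace

namespace Pool.Agent.Lib_helper55.Beil

universe v

variable {k : Type} [Field k] {E : Type} [Field E]

/-- Boundary maps `H (n + 1) U → H n Z` for a closed subvariety `Z` of `X` with complement `U`. -/
structure BdMap (T : Maps.{v} k E) where
  /-- the boundary maps -/
  bd : ∀ (n : ℕ) {Z U X : Var k} (a : ClosedIn Z X) (j : OpenIn U X), Complementary a j →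
    (T.H (n + 1) U →ₗ[E] T.H n Z)

/-- The boundary of a homology class. -/
def BdMap.D {T : Maps.{v} k E} (B : BdMap T) (n : ℕ) {Z U X : Var k} (a : ClosedIn Z X)
    (j : OpenIn U X) (h : Complementary a j) (m : T.H (n + 1) U) : T.H n Z := B.bd n a j h m

/-- The boundary maps commute with Frobenius. -/
def BdMap.Equivariant {T : Maps.{v} k E} (B : BdMap T) : Prop :=
  ∀ (n : ℕ) (Z U X : Var k) (a : ClosedIn Z X) (j : OpenIn U X) (h : Complementary a j)
    (m : T.H (n + 1) U), B.D n a j h (T.F (n + 1) U m) = T.F n Z (B.D n a j h m)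

/-- The localisation sequences are exact at `H (n + 1) U` and at `H n Z`. -/
def BdMap.Exact {T : Maps.{v} k E} (B : BdMap T) : Prop :=
  ∀ (n : ℕ) (Z U X : Var k) (a : ClosedIn Z X) (j : OpenIn U X) (h : Complementary a j),
    Function.Exact (T.R (n + 1) j) (B.D n a j h) ∧ Function.Exact (B.D n a j h) (T.P n a)

/-- The boundary maps are compatible with the passage to a smaller open subvariety. -/
def BdMap.Shrink {T : Maps.{v} k E} (B : BdMap T) : Prop :=
  ∀ (n : ℕ) (Z U Z' U' X : Var k) (a : ClosedIn Z X) (j : OpenIn U X)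
    (h : Complementary a j) (a' : ClosedIn Z' X) (j' : OpenIn U' X) (h' : Complementary a' j')
    (b : ClosedIn Z Z') (l : OpenIn U' U), b.g ≫ a'.g = a.g → l.g ≫ j.g = j'.g →
    ∀ m : T.H (n + 1) U, T.P n b (B.D n a j h m) = B.D n a' j' h' (T.R (n + 1) l m)

/-- The restrictions to open subvarieties are functorial. -/
def Maps.ResComp (T : Maps.{v} k E) : Prop :=
  ∀ (n : ℕ) (U V X : Var k) (j : OpenIn U V) (l : OpenIn V X) (l' : OpenIn U X),
    j.g ≫ l.g = l'.g → ∀ m : T.H n X, T.R n l' m = T.R n j (T.R n l m)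

/-- The long exact localisation sequences: boundary maps which commute with Frobenius, make the
localisation sequences exact and are compatible with the passage to a smaller open subvariety.
Moreover the restrictions are functorial. -/
structure Boundary (T : Maps.{v} k E) extends BdMap T where
  equivariance : toBdMap.Equivariant
  exactness : toBdMap.Exact
  shrinking : toBdMap.Shrink
  functoriality : T.ResComp

section

variable {T : Maps.{v} k E} (B : Boundary T)

lemma Boundary.equivariant (n : ℕ) (Z U X : Var k) (a : ClosedIn Z X) (j : OpenIn U X)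
    (h : Complementary a j) (m : T.H (n + 1) U) :
    B.bd n a j h (T.F (n + 1) U m) = T.F n Z (B.bd n a j h m) := B.equivariance n Z U X a j h m

lemma Boundary.exact_open (n : ℕ) (Z U X : Var k) (a : ClosedIn Z X) (j : OpenIn U X)
    (h : Complementary a j) : Function.Exact (T.R (n + 1) j) (B.bd n a j h) :=
  (B.exactness n Z U X a j h).1

lemma Boundary.exact_closed (n : ℕ) (Z U X : Var k) (a : ClosedIn Z X) (j : OpenIn U X)
    (h : Complementary a j) : Function.Exact (B.bd n a j h) (T.P n a) :=
  (B.exactness n Z U X a j h).2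

lemma Boundary.shrink (n : ℕ) (Z U Z' U' X : Var k) (a : ClosedIn Z X) (j : OpenIn U X)
    (h : Complementary a j) (a' : ClosedIn Z' X) (j' : OpenIn U' X) (h' : Complementary a' j')
    (b : ClosedIn Z Z') (l : OpenIn U' U) (h1 : b.g ≫ a'.g = a.g) (h2 : l.g ≫ j.g = j'.g)
    (m : T.H (n + 1) U) : T.P n b (B.bd n a j h m) = B.bd n a' j' h' (T.R (n + 1) l m) :=
  B.shrinking n Z U Z' U' X a j h a' j' h' b l h1 h2 m

include B in
lemma Boundary.res_comp (n : ℕ) (U V X : Var k) (j : OpenIn U V) (l : OpenIn V X)
    (l' : OpenIn U X) (h : j.g ≫ l.g = l'.g) (m : T.H n X) :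
    T.R n l' m = T.R n j (T.R n l m) := B.functoriality n U V X j l l' h m

end

/-- Pull-back maps along the finite etale coverings. -/
structure PullMap (T : Maps.{v} k E) where
  /-- the pull-back maps -/
  pull : ∀ (n : ℕ) {V U : Var k}, FinEt V U → (T.H n U →ₗ[E] T.H n V)

/-- Pull-back of a homology class. -/
def PullMap.C {T : Maps.{v} k E} (Q : PullMap T) (n : ℕ) {V U : Var k} (π : FinEt V U)
    (m : T.H n U) : T.H n V := Q.pull n π m

/-- The pull-back maps are injective and commute with Frobenius. -/
def PullMap.Injective {T : Maps.{v} k E} (Q : PullMap T) : Prop :=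
  ∀ (n : ℕ) (V U : Var k) (π : FinEt V U), Function.Injective (Q.C n π) ∧
    ∀ m : T.H n U, Q.C n π (T.F n U m) = T.F n V (Q.C n π m)

/-- The pull-back maps are compatible with the restriction to open subvarieties. -/
def PullMap.Restricts {T : Maps.{v} k E} (Q : PullMap T) : Prop :=
  ∀ (n : ℕ) (V' U' V U : Var k) (π : FinEt V U) (ρ : FinEt V' U') (j' : OpenIn V' V)
    (j : OpenIn U' U), ρ.g ≫ j.g = j'.g ≫ π.g →
    ∀ m : T.H n U, Q.C n ρ (T.R n j m) = T.R n j' (Q.C n π m)

/-- Pull-back maps along the finite etale coverings: injective, compatible with Frobenius and with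
the restriction to open subvarieties. -/
def Maps.Transfer (T : Maps.{v} k E) : Prop :=
  ∃ Q : PullMap T, Q.Injective ∧ Q.Restricts

/-- Every integral variety `U` of dimension `d` has a nonempty open subvariety `V` with a finite
etale covering `V'` which is an open subvariety of a smooth proper integral variety of
dimension `d` (this follows from de Jong's alterations, for a perfect field `k`). -/
def Alterations (k : Type) [Field k] : Prop :=
  ∀ (U : Var k) (d : ℕ) (_ : IsIntegral U.X), U.dim (genericPoint U.X) = d →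
    ∃ (V V' X : Var k) (_ : OpenIn V U) (_ : OpenIn V' X) (_ : FinEt V' V),
      Nonempty V.X ∧ X.SmoothProper d

variable {i : ℕ} (T : Homology.{v} k E i)

/-- On the smooth proper varieties there are no invariants of Frobenius in odd degree (Deligne). -/
def Homology.Pure : Prop :=
  ∀ (X : Var k) (d : ℕ), X.SmoothProper d →
    ∀ m : T.H (2 * i + 1) X, T.F (2 * i + 1) X m = m → m = 0

/-- Generic vanishing in degree `n`: on the integral finite etale covers `U` of the affine spaces
of dimension `d`, `n - i < d ≤ n`, every class in `H n U` which is invariant under Frobenius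
vanishes on a nonempty open subvariety. -/
def Homology.GenericVanishing (n : ℕ) : Prop :=
  ∀ (d : ℕ) (U : Var k), n < d + i → d ≤ n → AlgebraicGeometry.IsIntegral U.X → U.EtaleCover d →
    ∀ m : T.H n U, T.F n U m = m →
      ∃ (U' : Var k) (j : OpenIn U' U), Nonempty U'.X ∧ T.R n j m = 0

/-- The identity as an open immersion. -/
noncomputable def OpenIn.refl (X : Var k) : OpenIn X X where
  g := 𝟙 _
  comm := Category.id_comp _
  isOpen := inferInstance

lemma OpenIn.isIntegral {U V : Var k} (j : OpenIn U V) [AlgebraicGeometry.IsIntegral V.X]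
    (h : Nonempty U.X) : AlgebraicGeometry.IsIntegral U.X := by
  have := j.isOpen
  exact isIntegral_of_isOpenImmersion j.g

lemma OpenIn.smooth {U V : Var k} (j : OpenIn U V) (h : Smooth V.f) : Smooth U.f := by
  have := j.isOpen
  rw [← j.comm]
  infer_instance

lemma OpenIn.generic {U V : Var k} (j : OpenIn U V) [AlgebraicGeometry.IsIntegral V.X]
    [AlgebraicGeometry.IsIntegral U.X] : j.g (genericPoint U.X) = genericPoint V.X := by
  have := j.isOpen
  exact genericPoint_eq_of_isOpenImmersion j.g

lemma OpenIn.dim_generic {U V : Var k} (j : OpenIn U V) [AlgebraicGeometry.IsIntegral V.X]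
    [AlgebraicGeometry.IsIntegral U.X] :
    U.dim (genericPoint U.X) = V.dim (genericPoint V.X) := by
  have := j.isOpen
  rw [← dim_map j.g j.comm, j.generic]

lemma Homology.res_pow {U V : Var k} (j : OpenIn U V) (n r : ℕ) (m : T.H n V) :
    T.res n j (((T.frob n V - 1) ^ r) m) = ((T.frob n U - 1) ^ r) (T.res n j m) := by
  have h1 := aeval_intertwine (T.frob n V) (T.frob n U) (T.res n j) (T.res_frob n j)
    ((Polynomial.X - 1) ^ r) m
  simp only [map_pow, map_sub, Polynomial.aeval_X, map_one] at h1
  exact h1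

/-- Under generic vanishing, the classes in the generalised eigenspace for the eigenvalue one also
vanish on nonempty open subvarieties. -/
lemma Homology.gen_dies (B : Boundary T.toMaps) (p : ℕ) (hp : 0 < p) [CharP k p] {n : ℕ}
    (hT : T.GenericVanishing n) (r : ℕ) :
    ∀ (V : Var k) (_ : AlgebraicGeometry.IsIntegral V.X) (_ : Smooth V.f) (d : ℕ),
      V.dim (genericPoint V.X) = d → n < d + i → d ≤ n → ∀ m : T.H n V,
      ((T.frob n V - 1) ^ r) m = 0 →
        ∃ (U' : Var k) (j : OpenIn U' V), Nonempty U'.X ∧ T.res n j m = 0 := by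
  induction r with
  | zero =>
    intro V hint _ d _ _ _ m hm
    refine ⟨V, OpenIn.refl V, inferInstance, ?_⟩
    have : m = 0 := hm
    rw [this, map_zero]
  | succ r ih =>
    intro V hint hsm d hd h1 h2 m hm
    obtain ⟨W, d', hη, hcov, hd'⟩ := exists_etaleCover p hp V hsm
    obtain rfl : d = d' := by rw [hd, Nat.cast_inj] at hd'; exact hd'
    have hne : Nonempty (openVar V W).X := ⟨⟨_, hη⟩⟩
    let l : OpenIn (openVar V W) V := openVarIn V W
    have hWint := l.isIntegral hne
    have hinv : T.F n (openVar V W) (T.res n l (((T.frob n V - 1) ^ r) m)) =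
        T.res n l (((T.frob n V - 1) ^ r) m) := by
      change T.frob n (openVar V W) (T.res n l (((T.frob n V - 1) ^ r) m)) = _
      rw [← T.res_frob n l, ← sub_eq_zero, ← map_sub]
      have : T.frob n V (((T.frob n V - 1) ^ r) m) - ((T.frob n V - 1) ^ r) m = 0 := by
        have h3 : ((T.frob n V - 1) ^ (r + 1)) m =
            T.frob n V (((T.frob n V - 1) ^ r) m) - ((T.frob n V - 1) ^ r) m := by
          rw [pow_succ', Module.End.mul_apply, LinearMap.sub_apply, Module.End.one_apply]
        rw [← h3, hm]
      rw [this, map_zero]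
    obtain ⟨U', j, hne', hj⟩ := hT d (openVar V W) h1 h2 hWint hcov _ hinv
    have hU'int := j.isIntegral hne'
    have hj0 : ((T.frob n U' - 1) ^ r) (T.res n j (T.res n l m)) = 0 := by
      rw [← T.res_pow, ← T.res_pow]
      exact hj
    obtain ⟨U'', j', hne'', hj'⟩ := ih U' hU'int (j.smooth (l.smooth hsm)) d
      (by rw [j.dim_generic, l.dim_generic, hd]) h1 h2 _ hj0
    refine ⟨U'', j'.trans (j.trans l), hne'', ?_⟩
    have h4 := B.res_comp n U'' U' V j' (j.trans l) (j'.trans (j.trans l)) rfl m
    have h5 := B.res_comp n U' (openVar V W) V j l (j.trans l) rfl m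
    have h6 : T.res n (j.trans l) m = T.res n j (T.res n l m) := h5
    change T.res n (j'.trans (j.trans l)) m = 0
    refine h4.trans ?_
    change T.res n j' (T.res n (j.trans l) m) = 0
    rw [h6, hj']

lemma generic_mem_range {U V : Var k} (j : OpenIn U V) [AlgebraicGeometry.IsIntegral V.X]
    (h : Nonempty U.X) : genericPoint V.X ∈ Set.range j.g := by
  have := j.isOpen
  obtain ⟨u⟩ := h
  exact (genericPoint_specializes (j.g u)).mem_open j.g.opensRange.2 ⟨u, rfl⟩

/-- The closed complement of an open subvariety. -/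
noncomputable def complC {U V : Var k} (j : OpenIn U V) : Closeds V.X :=
  ⟨(Set.range j.g)ᶜ, by
    have := j.isOpen
    exact j.g.opensRange.2.isClosed_compl⟩

lemma complementary_complC {U V : Var k} (j : OpenIn U V) :
    Complementary (closedVarIn V (complC j)) j := by
  rw [Complementary, range_closedVarIn]
  rfl

/-- A smooth affine integral variety is good if its proper closed subvarieties are. -/
lemma Homology.good_nice2 (B : Boundary T.toMaps) (p : ℕ) (hp : 0 < p) [CharP k p]
    (hT : T.GenericVanishing (2 * i)) (V : Var k) (hint : AlgebraicGeometry.IsIntegral V.X)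
    (haff : IsAffine V.X) (hsm : Smooth V.f)
    (hD : ∀ D : Closeds V.X, genericPoint V.X ∉ D →
      T.gen (closedVar V D) ≤ T.alg (closedVar V D)) :
    T.gen V ≤ T.alg V := by
  obtain ⟨W, d, -, -, hd⟩ := exists_etaleCover p hp V hsm
  rcases lt_trichotomy d i with h | h | h
  · exact T.good_of_subsingleton V (T.vanish (2 * i) V hint d hd (by omega))
  · subst h
    refine (T.fundamental V hint hd).trans (Submodule.span_mono ?_)
    rintro _ rfl
    exact ⟨_, rfl⟩
  · rcases lt_or_ge (2 * i) d with h2 | h2
    · exact T.good_of_subsingleton V (T.artin (2 * i) V hint haff hsm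
        (by rw [hd, Nat.cast_lt]; exact h2))
    · intro m hm
      obtain ⟨r, hr⟩ := (mem_maxGen_iff _ _).1 hm
      obtain ⟨U', j, hne, hj⟩ := T.gen_dies B p hp hT r V hint hsm d hd (by omega) h2 m hr
      obtain ⟨z, hz⟩ := (T.exact_X (2 * i) _ j (complementary_complC j) _).mp hj
      have h4 : T.push (2 * i) (closedVarIn V (complC j)) z ∈ T.gen V := by
        rw [hz]
        exact hm
      obtain ⟨z', hz', h5⟩ := maxGen_lift (T.frob (2 * i) _) (T.frob (2 * i) V)
        (T.push (2 * i) (closedVarIn V (complC j)))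
        (T.push_frob (2 * i) (closedVarIn V (complC j))) h4
      rw [← hz, ← h5]
      exact T.push_alg _ (hD (complC j) (fun hcon => hcon (generic_mem_range j hne)) hz')

/-- Generic vanishing in degree `2 * i` implies that for every variety the generalised eigenspace
of Frobenius is spanned by cycle classes. -/
theorem Homology.good_of_generic [PerfectField k] (B : Boundary T.toMaps) (p : ℕ) (hp : 0 < p)
    [CharP k p] (hT : T.GenericVanishing (2 * i)) (X : Var k) : T.gen X ≤ T.alg X :=
  T.good_aux (fun V h1 h2 h3 h4 => T.good_nice2 B p hp hT V h1 h2 h3 h4) X ⊤ X (𝟙 _)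
    (Category.id_comp _) inferInstance (fun _ => trivial)

/-- If the generalised eigenvectors in `H (2 * i + 1) U` vanish on nonempty open subvarieties, then
homologically trivial cycles are rationally equivalent to zero. -/
lemma Homology.injC_aux2 [PerfectField k] (B : Boundary T.toMaps) (p : ℕ) (hp : 0 < p) [CharP k p]
    (hT : T.GenericVanishing (2 * i + 1)) (hlow : ∀ X : Var k, X.DimLE (i + 1) → T.Inj X)
    (X₀ : Var k) (C : Closeds X₀.X) :
    ∀ (Y : Var k) (g : Y.X ⟶ X₀.X), g ≫ X₀.f = Y.f → IsPreimmersion g → (∀ y, g y ∈ C) →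
      T.InjC Y := by
  induction C using WellFoundedLT.induction with
  | ind C ih =>
  intro Y g comm hg hC
  apply T.injC_of_red
  have hred := isReduced_redVar Y
  have hcl := (redVarIn Y).closed
  set Y' := redVar Y
  set g' : Y'.X ⟶ X₀.X := (redVarIn Y).g ≫ g
  have comm' : g' ≫ X₀.f = Y'.f := by
    rw [Category.assoc, comm, (redVarIn Y).comm]
  have hC' : ∀ y, g' y ∈ C := fun y => hC _
  by_cases hl : Y'.DimLE (i + 1)
  · exact (T.inj_iff Y').mp (hlow Y' hl)
  rw [Var.DimLE] at hl
  push Not at hl
  obtain ⟨x, hx⟩ := hl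
  obtain ⟨η, hηx, hη⟩ := exists_maximal Y' x
  have hηdim : ((i + 1 : ℕ) : Cardinal) < Y'.dim η :=
    hx.trans_le (dim_le_of_specializes Y' hηx)
  intro c hc
  let A : Set Y'.X := Set.range (fun p : c.support => p.1.1)
  have hA : η ∉ closure A := by
    rw [show A = ⋃ p : c.support, {p.1.1} by ext; simp [A, eq_comm], closure_iUnion_of_finite]
    intro hcon
    simp only [Set.mem_iUnion] at hcon
    obtain ⟨p, hp⟩ := hcon
    have h3 : p.1.1 ⤳ η := specializes_iff_mem_closure.mpr hp
    have h4 := hη _ h3
    have h5 := p.1.2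
    rw [h4] at h5
    rw [h5, Nat.cast_lt] at hηdim
    omega
  obtain ⟨U, hU1, hU2, hU3, hU4, hU5, hU6⟩ := exists_nice Y' η hη
    ⟨(closure A)ᶜ, isClosed_closure.isOpen_compl⟩ hA
  have hdim : (openVar Y' U).dim (genericPoint (openVar Y' U).X) = Y'.dim η := by
    have := (openVarIn Y' U).isOpen
    rw [← dim_map (openVarIn Y' U).g (openVarIn Y' U).comm, hU6]
  -- closed subvarieties missing the point `η`
  have key : ∀ D : Closeds Y'.X, η ∉ D → T.InjC (closedVar Y' D) := by
    intro D hD
    have hcl2 := (closedVarIn Y' D).closed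
    refine ih (Closeds.closure (g' '' (D : Set Y'.X))) (lt_of_closed g' C hC' D η hD)
      (closedVar Y' D) ((closedVarIn Y' D).g ≫ g') ?_ inferInstance ?_
    · rw [Category.assoc, comm', (closedVarIn Y' D).comm]
    · intro y
      have h1 : (closedVarIn Y' D).g y ∈ (D : Set Y'.X) := by
        rw [← range_closedVarIn]
        exact ⟨y, rfl⟩
      exact subset_closure ⟨_, h1, rfl⟩
  let a := closedVarIn Y' U.compl
  let j := openVarIn Y' U
  have hcomp : Complementary a j := complementary_open Y' U
  obtain ⟨c', hc'⟩ : ∃ c' : Pts i (closedVar Y' U.compl) →₀ E,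
      Finsupp.mapDomain (ptsMap i a) c' = c := by
    refine ⟨Finsupp.comapDomain (ptsMap i a) c (ptsMap_injective i a).injOn, ?_⟩
    apply Finsupp.mapDomain_comapDomain _ (ptsMap_injective i a)
    intro q hq
    apply mem_range_ptsMap a q
    rw [range_closedVarIn]
    intro hcon
    exact hU2 hcon (subset_closure ⟨⟨q, hq⟩, rfl⟩)
  have h1 : T.push (2 * i) a (Finsupp.linearCombination E (T.cl _) c') = 0 := by
    rw [T.push_linComb, hc', hc]
  obtain ⟨γ, hγ⟩ := (B.exact_closed (2 * i) _ _ _ a j hcomp _).mp h1
  have hgen : B.bd (2 * i) a j hcomp γ ∈ T.gen (closedVar Y' U.compl) := by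
    rw [hγ]
    exact T.alg_le_gen _ (T.linComb_mem_alg _ c')
  obtain ⟨γ', hγ', hγ2⟩ := maxGen_lift (T.frob (2 * i + 1) (openVar Y' U))
    (T.frob (2 * i) (closedVar Y' U.compl)) (B.bd (2 * i) a j hcomp)
    (fun m => B.equivariant (2 * i) _ _ _ a j hcomp m) hgen
  obtain ⟨U', l, hne, hl⟩ : ∃ (U' : Var k) (l : OpenIn U' (openVar Y' U)), Nonempty U'.X ∧
      T.res (2 * i + 1) l γ' = 0 := by
    obtain ⟨W, d, -, -, hd⟩ := exists_etaleCover p hp (openVar Y' U) hU4
    have hd2 : i + 1 < d := by
      rw [← Nat.cast_lt (α := Cardinal), ← hd, hdim]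
      exact hηdim
    rcases lt_or_ge (2 * i + 1) d with h2 | h2
    · refine ⟨openVar Y' U, OpenIn.refl _, inferInstance, ?_⟩
      have := T.artin (2 * i + 1) (openVar Y' U) hU5 hU3 hU4
        (by rw [hd, Nat.cast_lt]; exact h2)
      rw [Subsingleton.elim γ' 0, map_zero]
    · obtain ⟨r, hr⟩ := (mem_maxGen_iff _ _).1 hγ'
      exact T.gen_dies B p hp hT r _ hU5 hU4 d hd (by omega) h2 γ' hr
  let j' : OpenIn U' Y' := l.trans j
  have hle : U.compl ≤ complC j' := by
    intro y hy
    change y ∉ Set.range j'.g
    rintro ⟨u, hu⟩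
    apply hy
    have : (openVarIn Y' U).g (l.g u) ∈ Set.range (openVarIn Y' U).g := ⟨_, rfl⟩
    rw [range_openVarIn] at this
    rw [← hu]
    exact this
  let b := closedVarMap Y' hle
  have hshrink := B.shrink (2 * i) _ _ _ _ _ a j hcomp (closedVarIn Y' (complC j')) j'
    (complementary_complC j') b l (closedVarMap_comp Y' hle) rfl γ'
  have hη' : η ∉ complC j' := by
    intro hcon
    apply hcon
    obtain ⟨u, hu⟩ := generic_mem_range l hne
    refine ⟨u, ?_⟩
    change (openVarIn Y' U).g (l.g u) = η
    rw [hu, hU6]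
  have h2 : Finsupp.linearCombination E (T.cl _) (Finsupp.mapDomain (ptsMap i b) c') = 0 := by
    rw [← T.push_linComb, ← hγ, ← hγ2]
    refine hshrink.trans ?_
    have : T.R (2 * i + 1) l γ' = 0 := hl
    rw [this, map_zero]
  have h3 := ratZero_map (closedVarIn Y' (complC j')) _ (key _ hη' _ h2)
  rw [← Finsupp.mapDomain_comp] at h3
  have h4 : ptsMap i (closedVarIn Y' (complC j')) ∘ ptsMap i b = ptsMap i a := by
    funext z
    apply Subtype.ext
    have := closedVarMap_comp Y' hle
    exact congrArg (fun f => f z.1) this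
  rw [h4, hc'] at h3
  exact h3

/-- Generic vanishing in degree `2 * i + 1` implies injectivity for all varieties. -/
theorem Homology.inj_of_generic [PerfectField k] (B : Boundary T.toMaps) (p : ℕ) (hp : 0 < p)
    [CharP k p] (hT : T.GenericVanishing (2 * i + 1))
    (hlow : ∀ X : Var k, X.DimLE (i + 1) → T.Inj X) (X : Var k) : T.Inj X :=
  (T.inj_iff X).mpr
    (T.injC_aux2 B p hp hT hlow X ⊤ X (𝟙 _) (Category.id_comp _) inferInstance (fun _ => trivial))

end Pool.Agent.Lib_helper55.Beil
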