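import Pool.Agent.Lib_helper55.Beil.Full

/-!
The bijectivity of the cycle class maps for all varieties implies generic vanishing.
-/

open CategoryTheory AlgebraicGeometry TopologicalSpace

namespace Pool.Agent.Lib_helper55.Beil

universe v

variable {k : Type} [Field k] {E : Type} [Field E]

/-- An integral finite etale cover of the affine space of dimension `d` has dimension `d`. -/
theorem dim_of_etaleCover (U : Var k) [IsIntegral U.X] {d : ℕ} (h : U.EtaleCover d) :
    U.dim (genericPoint U.X) = d := by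
  obtain ⟨g, hfin, het, hg⟩ := h
  have haff : IsAffine U.X := isAffine_of_isAffineHom g
  have hW : IsAffineOpen (⊤ : U.X.Opens) := isAffineOpen_top U.X
  let φ' : CommRingCat.of (MvPolynomial (Fin d) k) ⟶ Γ(U.X, ⊤) :=
    (Scheme.ΓSpecIso _).inv ≫ g.appTop
  let ψ' : CommRingCat.of k ⟶ Γ(U.X, ⊤) := CommRingCat.ofHom MvPolynomial.C ≫ φ'
  have hφ : Spec.map φ' = U.X.isoSpec.inv ≫ g := by
    rw [← Scheme.isoSpec_inv_naturality g, Spec.map_comp, Scheme.isoSpec_Spec_inv]
  have hψ : Spec.map (CommRingCat.ofHom ψ'.hom) = hW.fromSpec ≫ U.f := by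
    have : hW.fromSpec = U.X.isoSpec.inv := IsAffineOpen.fromSpec_top
    change Spec.map (CommRingCat.ofHom MvPolynomial.C ≫ φ') = _
    rw [this, Spec.map_comp, hφ, Category.assoc, hg]
  rw [dim_generic_eq U ⊤ hW trivial ψ'.hom hψ]
  let : Algebra k Γ(U.X, ⊤) := ψ'.hom.toAlgebra
  let φ : MvPolynomial (Fin d) k →ₐ[k] Γ(U.X, ⊤) :=
    { φ'.hom with commutes' := fun r => rfl }
  refine trdeg_eq_of_etale φ ?_
  have h1 : g.appTop.hom.Etale := (HasRingHomProperty.iff_of_isAffine (P := @Etale)).1 het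
  exact RingHom.Etale.respectsIso.2 g.appTop.hom
      (Scheme.ΓSpecIso (CommRingCat.of (MvPolynomial (Fin d) k))).symm.commRingCatIsoToRingEquiv h1

variable {i : ℕ}

/-- A cycle rationally equivalent to zero is rationally equivalent to zero on every closed
subvariety which contains a certain closed subset of dimension at most `i + 1`. -/
lemma ratZero_support (X : Var k) (c : Pts i X →₀ E) (hc : c ∈ ratZero E i X) :
    ∃ D : Closeds X.X, (∀ x ∈ D, X.dim x ≤ (i + 1 : ℕ)) ∧ ∀ C : Closeds X.X, D ≤ C →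
      ∃ c' : Pts i (closedVar X C) →₀ E, c' ∈ ratZero E i (closedVar X C) ∧
        Finsupp.mapDomain (ptsMap i (closedVarIn X C)) c' = c := by
  induction hc using Submodule.span_induction with
  | mem c hc =>
    obtain ⟨W, hW, a, φ, h1, h2, h3, h4⟩ := hc
    have hcl := a.closed
    refine ⟨⟨Set.range a.g, a.g.isClosedEmbedding.isClosed_range⟩, ?_, ?_⟩
    · rintro _ ⟨w, rfl⟩
      rw [dim_map a.g a.comm, ← h1]
      exact dim_le_of_specializes W (genericPoint_specializes w)
    · intro C hC
      have hmem : ∀ w, a.g w ∈ C := fun w => hC ⟨w, rfl⟩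
      refine ⟨Finsupp.comapDomain (ptsMap i (closedVarIn X C)) c (ptsMap_injective i _).injOn,
        ?_, ?_⟩
      · refine Submodule.subset_span ⟨W, hW, factorC a C hmem, φ, h1, h2, ?_, ?_⟩
        · intro w h
          have h5 : (closedVarIn X C).g ((factorC a C hmem).g w) = a.g w :=
            congrArg (fun f => f w) (factorC_comp a C hmem)
          have h6 : X.dim (a.g w) = i := by
            rw [← h5]
            have := (closedVarIn X C).closed
            rw [dim_map (closedVarIn X C).g (closedVarIn X C).comm]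
            exact h
          refine Eq.trans ?_ (h3 w h6)
          change c (ptsMap i (closedVarIn X C) ⟨(factorC a C hmem).g w, h⟩) = c _
          exact congrArg c (Subtype.ext h5)
        · intro x hx
          rw [Finsupp.comapDomain_apply]
          apply h4
          rintro ⟨w, hw⟩
          apply hx
          refine ⟨w, closedIn_injective (closedVarIn X C) ?_⟩
          have h5 : (closedVarIn X C).g ((factorC a C hmem).g w) = a.g w :=
            congrArg (fun f => f w) (factorC_comp a C hmem)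
          rw [h5]
          exact hw
      · apply Finsupp.mapDomain_comapDomain _ (ptsMap_injective i _)
        intro q hq
        apply mem_range_ptsMap (closedVarIn X C) q
        rw [range_closedVarIn]
        have h5 : q.1 ∈ Set.range a.g := by
          by_contra hcon
          exact (Finsupp.mem_support_iff.1 hq) (h4 q hcon)
        obtain ⟨w, hw⟩ := h5
        rw [← hw]
        exact hmem w
  | zero => exact ⟨⊥, fun x hx => hx.elim, fun C _ => ⟨0, zero_mem _, by simp⟩⟩
  | add x y _ _ hx hy =>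
    obtain ⟨D, hD, hD'⟩ := hx
    obtain ⟨F, hF, hF'⟩ := hy
    refine ⟨D ⊔ F, ?_, ?_⟩
    · intro z hz
      rcases hz with hz | hz
      · exact hD z hz
      · exact hF z hz
    · intro C hC
      obtain ⟨x', hx'1, hx'2⟩ := hD' C (le_sup_left.trans hC)
      obtain ⟨y', hy'1, hy'2⟩ := hF' C (le_sup_right.trans hC)
      exact ⟨x' + y', add_mem hx'1 hy'1, by rw [Finsupp.mapDomain_add, hx'2, hy'2]⟩
  | smul r x _ hx =>
    obtain ⟨D, hD, hD'⟩ := hx
    refine ⟨D, hD, fun C hC => ?_⟩
    obtain ⟨x', hx'1, hx'2⟩ := hD' C hC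
    exact ⟨r • x', Submodule.smul_mem _ _ hx'1, by rw [Finsupp.mapDomain_smul, hx'2]⟩

lemma complementary_closed (X : Var k) (C : Closeds X.X) :
    Complementary (closedVarIn X C) (openVarIn X C.compl) := by
  rw [Complementary, range_closedVarIn, range_openVarIn]
  ext x
  simp

variable (T : Homology.{v} k E i)

/-- Surjectivity implies generic vanishing in degree `2 * i`. -/
theorem Homology.generic_of_surj (hs : ∀ X : Var k, T.Surj X) : T.GenericVanishing (2 * i) := by
  intro d U h1 _ hint hcov m hm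
  have hd := dim_of_etaleCover U hcov
  obtain ⟨α, rfl⟩ := hs U m hm
  obtain ⟨c, rfl⟩ := (ratZero E i U).mkQ_surjective α
  let A : Set U.X := Set.range (fun p : c.support => p.1.1)
  have hA : genericPoint U.X ∉ closure A := by
    rw [show A = ⋃ p : c.support, {p.1.1} by ext; simp [A, eq_comm], closure_iUnion_of_finite]
    intro hcon
    simp only [Set.mem_iUnion] at hcon
    obtain ⟨p, hp⟩ := hcon
    have h3 : p.1.1 ⤳ genericPoint U.X := specializes_iff_mem_closure.mpr hp
    have h4 := dim_le_of_specializes U h3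
    have h5 := p.1.2
    rw [hd, h5, Nat.cast_le] at h4
    omega
  let C : Closeds U.X := ⟨closure A, isClosed_closure⟩
  refine ⟨openVar U C.compl, openVarIn U C.compl, ⟨⟨genericPoint U.X, hA⟩⟩, ?_⟩
  change T.res (2 * i) (openVarIn U C.compl) _ = 0
  rw [T.clMap_mk, Finsupp.linearCombination_apply, Finsupp.sum, map_sum]
  apply Finset.sum_eq_zero
  intro p hp
  rw [map_smul, T.res_cl_eq_zero (closedVarIn U C) (openVarIn U C.compl)
    (complementary_closed U C) p ?_, smul_zero]
  rw [range_closedVarIn]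
  exact subset_closure ⟨⟨p, hp⟩, rfl⟩

/-- Bijectivity of the cycle class maps implies generic vanishing in degree `2 * i + 1`. -/
theorem Homology.generic_of_bij (B : Boundary T.toMaps) (htr : T.Transfer) (hpure : T.Pure)
    (hdJ : Alterations k) (hQ : ∀ X : Var k, T.Inj X ∧ T.Surj X) :
    T.GenericVanishing (2 * i + 1) := by
  intro d U h1 _ hint hcov m hm
  have hd := dim_of_etaleCover U hcov
  obtain ⟨V, V', X, j, j', π, hne, hX⟩ := hdJ U d hint hd
  obtain ⟨Q, hQ1, hQ2⟩ := htr
  let pull : ∀ (n : ℕ) {V U : Var k}, FinEt V U → (T.H n U →ₗ[E] T.H n V) := Q.pull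
  have hpi : ∀ (n : ℕ) (V U : Var k) (π : FinEt V U), Function.Injective (pull n π) :=
    fun n V U π => (hQ1 n V U π).1
  have hpF : ∀ (n : ℕ) (V U : Var k) (π : FinEt V U) (m : T.H n U),
      pull n π (T.F n U m) = T.F n V (pull n π m) := fun n V U π => (hQ1 n V U π).2
  have hpR : ∀ (n : ℕ) (V' U' V U : Var k) (π : FinEt V U) (ρ : FinEt V' U') (j' : OpenIn V' V)
      (j : OpenIn U' U), ρ.g ≫ j.g = j'.g ≫ π.g →
      ∀ m : T.H n U, pull n ρ (T.R n j m) = T.R n j' (pull n π m) := hQ2
  have hXint : AlgebraicGeometry.IsIntegral X.X := hX.2.2.1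
  have hXd : X.dim (genericPoint X.X) = d := hX.2.2.2
  have hVint := j.isIntegral hne
  have hne' : Nonempty V'.X := by
    obtain ⟨y⟩ := hne
    obtain ⟨x, -⟩ := π.surj.surj y
    exact ⟨x⟩
  have hV'int := j'.isIntegral hne'
  have hjF : T.F (2 * i + 1) V (T.R (2 * i + 1) j m) = T.R (2 * i + 1) j m := by
    have := T.res_frob (2 * i + 1) j m
    change T.frob (2 * i + 1) V (T.res (2 * i + 1) j m) = T.res (2 * i + 1) j m
    rw [← this]
    exact congrArg _ hm
  obtain ⟨γ, hγdef⟩ : ∃ γ, γ = pull (2 * i + 1) π (T.R (2 * i + 1) j m) := ⟨_, rfl⟩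
  have hγ : T.F (2 * i + 1) V' γ = γ := by
    rw [hγdef, ← hpF, hjF]
  let Z := closedVar X (complC j')
  let a : ClosedIn Z X := closedVarIn X (complC j')
  have hcomp : Complementary a j' := complementary_complC j'
  have hδ : T.F (2 * i) Z (B.bd (2 * i) a j' hcomp γ) = B.bd (2 * i) a j' hcomp γ := by
    rw [← B.equivariant, hγ]
  obtain ⟨α, hα⟩ := (hQ Z).2 _ hδ
  obtain ⟨β, rfl⟩ := (ratZero E i Z).mkQ_surjective α
  rw [T.clMap_mk] at hα
  have hpush : T.push (2 * i) a (B.bd (2 * i) a j' hcomp γ) = 0 :=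
    (B.exact_closed (2 * i) _ _ _ a j' hcomp).apply_apply_eq_zero γ
  have hrat : Finsupp.mapDomain (ptsMap i a) β ∈ ratZero E i X := by
    apply (T.inj_iff X).1 (hQ X).1
    rw [← T.push_linComb, hα, hpush]
  obtain ⟨D, hD1, hD2⟩ := ratZero_support X _ hrat
  let C : Closeds X.X := complC j' ⊔ D
  obtain ⟨c', hc'1, hc'2⟩ := hD2 C le_sup_right
  have hleC : complC j' ≤ C := le_sup_left
  let b := closedVarMap X hleC
  have hηC : genericPoint X.X ∉ C := by
    rintro (hcon | hcon)
    · exact hcon (generic_mem_range j' hne')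
    · have := hD1 _ hcon
      rw [hXd, Nat.cast_le] at this
      omega
  let j'' := openVarIn X C.compl
  have hne'' : Nonempty (openVar X C.compl).X := ⟨⟨genericPoint X.X, hηC⟩⟩
  have hrange : Set.range j''.g ⊆ Set.range j'.g := by
    rw [range_openVarIn]
    intro x hx
    by_contra hcon
    exact hx (Or.inl hcon)
  let l := factorO j'' j' hrange
  have hl : l.g ≫ j'.g = j''.g := factorO_comp j'' j' hrange
  have hshrink := B.shrink (2 * i) _ _ _ _ _ a j' hcomp (closedVarIn X C) j''
    (complementary_closed X C) b l (closedVarMap_comp X hleC) hl γ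
  have hbβ : Finsupp.mapDomain (ptsMap i b) β = c' := by
    apply Finsupp.mapDomain_injective (ptsMap_injective i (closedVarIn X C))
    rw [hc'2, ← Finsupp.mapDomain_comp]
    congr 1
    funext z
    apply Subtype.ext
    have := closedVarMap_comp X hleC
    exact congrArg (fun f => f z.1) this
  have hzero : B.bd (2 * i) (closedVarIn X C) j'' (complementary_closed X C)
      (T.R (2 * i + 1) l γ) = 0 := by
    rw [← hshrink]
    change T.push (2 * i) b _ = 0
    rw [← hα, T.push_linComb, hbβ]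
    exact T.cl_rat _ _ hc'1
  obtain ⟨ξ, hξ⟩ := (B.exact_open (2 * i) _ _ _ (closedVarIn X C) j''
    (complementary_closed X C) _).1 hzero
  have hinv : T.frob (2 * i + 1) _ (T.res (2 * i + 1) l γ) = T.res (2 * i + 1) l γ := by
    rw [← T.res_frob]
    exact congrArg _ hγ
  have hgen : T.res (2 * i + 1) j'' ξ ∈
      Module.End.maxGenEigenspace (T.frob (2 * i + 1) (openVar X C.compl)) 1 := by
    have : T.res (2 * i + 1) j'' ξ = T.res (2 * i + 1) l γ := hξ
    rw [this]
    refine (mem_maxGen_iff _ _).mpr ⟨1, ?_⟩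
    rw [pow_one, LinearMap.sub_apply, Module.End.one_apply, hinv, sub_self]
  obtain ⟨ξ', hξ', hξ2⟩ := maxGen_lift (T.frob (2 * i + 1) X)
    (T.frob (2 * i + 1) (openVar X C.compl)) (T.res (2 * i + 1) j'')
    (T.res_frob (2 * i + 1) j'') hgen
  have hξ0 : ξ' = 0 := maxGen_eq_bot _ (fun m hm => hpure X d hX m hm) hξ'
  have hlγ : T.R (2 * i + 1) l γ = 0 := by
    rw [← hξ]
    change T.res (2 * i + 1) j'' ξ = 0
    rw [← hξ2, hξ0, map_zero]
  obtain ⟨P, hP1, hP2⟩ := π.exists_open
    ⟨Set.range l.g, by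
      have := l.isOpen
      exact l.g.opensRange.2⟩ (generic_mem_range l hne'')
  have hrange2 : Set.range (openVarIn V' (π.g ⁻¹ᵁ P)).g ⊆ Set.range l.g := by
    rw [range_openVarIn]
    exact hP2
  let t := factorO (openVarIn V' (π.g ⁻¹ᵁ P)) l hrange2
  have ht := factorO_comp (openVarIn V' (π.g ⁻¹ᵁ P)) l hrange2
  have hQγ : T.R (2 * i + 1) (openVarIn V' (π.g ⁻¹ᵁ P)) γ = 0 := by
    rw [B.res_comp (2 * i + 1) _ _ _ t l _ ht γ, hlγ]
    exact map_zero (T.res (2 * i + 1) t)
  have hPγ : T.R (2 * i + 1) (openVarIn V P) (T.R (2 * i + 1) j m) = 0 := by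
    apply hpi (2 * i + 1) _ _ (π.restrict P)
    rw [hpR (2 * i + 1) _ _ _ _ π (π.restrict P) (openVarIn V' (π.g ⁻¹ᵁ P)) (openVarIn V P)
      (π.restrict_comm P), ← hγdef, hQγ, map_zero]
  refine ⟨openVar V P, (openVarIn V P).trans j, ⟨⟨_, hP1⟩⟩, ?_⟩
  rw [B.res_comp (2 * i + 1) _ _ _ (openVarIn V P) j _ rfl m, hPγ]

end Pool.Agent.Lib_helper55.Beil
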