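import Pool.Agent.Lib_helper55.Beil.Cover
import Pool.Agent.Lib_helper66.GenTate.Frob

/-!
Surjectivity of cycle class maps implies that Frobenius acts semisimply on the cohomology of all
smooth proper varieties.
-/

open CategoryTheory AlgebraicGeometry Limits

namespace Pool.Agent.Lib_helper55.Beil

universe v

variable {k : Type} [Field k]

/-- The product of two varieties over `k`. -/
noncomputable def Var.prod (X Y : Var k) : Var k where
  X := pullback X.f Y.f
  f := pullback.fst X.f Y.f ≫ X.f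
  sep := inferInstance
  lft := inferInstance
  qc := inferInstance

/-- The cohomology groups `coh n Z = H^n(Zbar, Q_l)` of the varieties over `k` with the
action of Frobenius (of the generator of the Galois group). -/
structure Coh (k : Type) [Field k] (E : Type) [Field E] where
  /-- the cohomology groups -/
  coh : ℕ → Var k → Type v
  [grp : ∀ n X, AddCommGroup (coh n X)]
  [mod : ∀ n X, Module E (coh n X)]
  [fin : ∀ n X, Module.Finite E (coh n X)]
  /-- Frobenius -/
  phi : ∀ n X, coh n X ≃ₗ[E] coh n X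

attribute [instance] Coh.grp Coh.mod Coh.fin

variable {E : Type} [Field E]

/-- The endomorphisms of `H^n(Zbar, Q_l)`. -/
def Coh.Endo (C : Coh.{v} k E) (n : ℕ) (Z : Var k) : Type v :=
  Module.End E (C.coh n Z)

instance (C : Coh.{v} k E) (n : ℕ) (Z : Var k) : AddCommGroup (C.Endo n Z) :=
  inferInstanceAs (AddCommGroup (Module.End E (C.coh n Z)))

instance (C : Coh.{v} k E) (n : ℕ) (Z : Var k) : Module E (C.Endo n Z) :=
  inferInstanceAs (Module E (Module.End E (C.coh n Z)))

/-- Frobenius on `H^n(Zbar, Q_l)`. -/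
def Coh.frob (C : Coh.{v} k E) (n : ℕ) (Z : Var k) : Module.End E (C.coh n Z) :=
  (C.phi n Z).toLinearMap

/-- The inverse of Frobenius on `H^n(Zbar, Q_l)`. -/
def Coh.frobInv (C : Coh.{v} k E) (n : ℕ) (Z : Var k) : Module.End E (C.coh n Z) :=
  (C.phi n Z).symm.toLinearMap

/-- Conjugation with Frobenius on the endomorphisms of `H^n(Zbar, Q_l)`. -/
def Coh.conj (C : Coh.{v} k E) (n : ℕ) (Z : Var k) (a : C.Endo n Z) : C.Endo n Z :=
  C.frob n Z ∘ₗ a ∘ₗ C.frobInv n Z

/-- The map `ι` embeds the endomorphisms of `H^n(Zbar, Q_l)` with the conjugation with Frobenius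
into `H_(2d)(Zbar x Zbar, Q_l(d))`. -/
def IsEmb (C : Coh.{v} k E) {d : ℕ} (T : Homology.{v} k E d) (n : ℕ) (Z : Var k)
    (ι : C.Endo n Z → T.H (2 * d) (Z.prod Z)) : Prop :=
  IsLinearMap E ι ∧ Function.Injective ι ∧
    ∀ a : C.Endo n Z, T.F (2 * d) (Z.prod Z) (ι a) = ι (C.conj n Z a)

/-- The Kuenneth formula and Poincare duality: for a smooth proper variety `Z` of dimension `d`,
`End H^n(Zbar, Q_l) = H^n(Zbar, Q_l) ⊗ H^(2d-n)(Zbar, Q_l(d))` is a subspace of
`H^(2d)(Zbar x Zbar, Q_l(d)) = H_(2d)(Zbar x Zbar, Q_l(d))`, compatibly with Frobenius. -/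
def Kuenneth (C : Coh.{v} k E) (T : ∀ d : ℕ, Homology.{v} k E d) : Prop :=
  ∀ (Z : Var k) (d : ℕ), Z.SmoothProper d → ∀ n : ℕ,
    ∃ ι : C.Endo n Z → (T d).H (2 * d) (Z.prod Z), IsEmb C (T d) n Z ι

theorem frobenius_semisimple [Finite k] (C : Coh.{v} k E) (T : ∀ d : ℕ, Homology.{v} k E d)
    (hK : Kuenneth C T) (Z : Var k) (d : ℕ) (hZ : Z.SmoothProper d) (hT : (T d).CoverVanish)
    (n : ℕ) : (C.frob n Z).IsSemisimple := by
  obtain ⟨ι, hlin, hι, hF⟩ := hK Z d hZ n
  have hss := (T d).semisimple_of_good (Z.prod Z) ((T d).good_of_cover hT (Z.prod Z))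
  refine GenTate.semisimple_of_ad (C.phi n Z) ?_
  intro a ha
  apply hι
  have hsub : ∀ x y : C.Endo n Z, ι (x - y) = ι x - ι y := fun x y => hlin.map_sub x y
  have h0 : ι 0 = 0 := hlin.map_zero
  set φ : Module.End E (C.coh n Z) := (C.phi n Z).toLinearMap
  set ψ : Module.End E (C.coh n Z) := (C.phi n Z).symm.toLinearMap
  have hF' : ∀ a : Module.End E (C.coh n Z),
      (T d).F (2 * d) (Z.prod Z) (ι a) = ι (φ * a * ψ : Module.End E (C.coh n Z)) := hF
  have e3 : ι (φ * a * ψ - a : Module.End E (C.coh n Z)) =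
      (T d).F (2 * d) (Z.prod Z) (ι a) - ι a := by
    rw [hF']
    exact hsub _ _
  have e2 : (T d).F (2 * d) (Z.prod Z) (ι (φ * a * ψ - a : Module.End E (C.coh n Z))) =
      ι (φ * a * ψ - a : Module.End E (C.coh n Z)) := by
    rw [hF', ← sub_eq_zero]
    refine (hsub _ _).symm.trans ?_
    have : φ * (φ * a * ψ - a) * ψ - (φ * a * ψ - a) = 0 := ha
    exact (congrArg ι this).trans h0
  have h4 := hss (ι a) (by rw [← e3, e2])
  change ι (φ * a * ψ - a : Module.End E (C.coh n Z)) = ι 0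
  rw [h0, e3, h4, sub_self]

end Pool.Agent.Lib_helper55.Beil
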