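import Mathlib

/-!
A smooth algebra is etale over the polynomial ring on elements whose differentials form a basis.
-/

open Algebra TensorProduct

namespace Pool.Agent.Lib_helper55.Beil

universe u

section

variable {k P S : Type} [CommRing k] [CommRing P] [CommRing S] [Algebra k P] [Algebra k S]
  [Algebra P S] [IsScalarTower k P S]

theorem etale_of_bijective [Algebra.Smooth k S] [Algebra.FiniteType k P]
    (h : Function.Bijective (KaehlerDifferential.mapBaseChange k P S)) :
    Algebra.Etale P S := by
  have h1 : Subsingleton (Ω[S⁄P]) := by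
    constructor
    intro a b
    obtain ⟨a', rfl⟩ := KaehlerDifferential.map_surjective k P S a
    obtain ⟨b', rfl⟩ := KaehlerDifferential.map_surjective k P S b
    obtain ⟨a'', rfl⟩ := h.2 a'
    obtain ⟨b'', rfl⟩ := h.2 b'
    rw [(KaehlerDifferential.exact_mapBaseChange_map k P S).apply_apply_eq_zero,
      (KaehlerDifferential.exact_mapBaseChange_map k P S).apply_apply_eq_zero]
  have h2 : Subsingleton (H1Cotangent P S) := by
    have h3 : ∀ a : H1Cotangent P S, a = 0 := by
      intro a
      have h4 : H1Cotangent.δ k P S a = 0 := by
        apply h.1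
        rw [(H1Cotangent.exact_δ_mapBaseChange k P S).apply_apply_eq_zero, map_zero]
      obtain ⟨c, hc⟩ := (H1Cotangent.exact_map_δ k P S a).1 h4
      rw [← hc, Subsingleton.elim c 0, map_zero]
    exact ⟨fun a b => (h3 a).trans (h3 b).symm⟩
  have h5 : FormallyEtale P S := ⟨h1, h2⟩
  have h6 : FinitePresentation P S := .of_restrict_scalars_finitePresentation k P S
  exact ⟨h5, h6⟩

end

variable {k S : Type} [CommRing k] [CommRing S] [Algebra k S]

theorem etale_of_basis [Algebra.Smooth k S] {I : Type} [Finite I] (b : Module.Basis I S (Ω[S⁄k]))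
    (x : I → S) (hx : ∀ i, b i = KaehlerDifferential.D k S (x i)) :
    (MvPolynomial.aeval (R := k) x).toRingHom.Etale := by
  let alg : Algebra (MvPolynomial I k) S := (MvPolynomial.aeval (R := k) x).toRingHom.toAlgebra
  have tower : IsScalarTower k (MvPolynomial I k) S :=
    IsScalarTower.of_algebraMap_eq' (by
      ext a
      change algebraMap k S a = MvPolynomial.aeval x (algebraMap k (MvPolynomial I k) a)
      rw [AlgHom.commutes])
  change Algebra.Etale (MvPolynomial I k) S
  apply etale_of_bijective (k := k)
  let c := Module.Basis.baseChange S (KaehlerDifferential.mvPolynomialBasis k I)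
  have h1 : KaehlerDifferential.mapBaseChange k (MvPolynomial I k) S =
      (c.equiv b (Equiv.refl I)).toLinearMap := by
    apply c.ext
    intro i
    rw [LinearEquiv.coe_coe, Module.Basis.equiv_apply, Equiv.refl_apply, hx,
      Module.Basis.baseChange_apply, KaehlerDifferential.mvPolynomialBasis_apply,
      KaehlerDifferential.mapBaseChange_tmul, KaehlerDifferential.map_D, one_smul]
    congr 1
    exact MvPolynomial.aeval_X x i
  rw [h1]
  exact (c.equiv b (Equiv.refl I)).bijective

end Pool.Agent.Lib_helper55.Beil
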